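import Mathlib
import Pool.Graph.R_seed8.H757.LN.RetrN
import Pool.Graph.R_seed8.H261R3.LN.FDefs

/-! MP_e25190_gt: radial maps and geodesics of hyperbolic space. -/

set_option autoImplicit false

open scoped RealInnerProductSpace
open Pool.Agent.H261R3.LN
open Pool.Agent.H261R3.LN.Retr

namespace Pool.Agent.Helper81.LN

variable {m : ℕ}

/-- bilinear form -/
noncomputable def ee (z w : Hyp m) : ℝ := ⟪XX z, XX w⟫ + XL z * XL w

/-- distance to the origin -/
noncomputable def rd (z : Hyp m) : ℝ := hdist z (origin m)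

/-- `sinh (rd z)` -/
noncomputable def nn (z : Hyp m) : ℝ := Real.sqrt (‖XX z‖ ^ 2 + XL z ^ 2)

theorem rd_nonneg (z : Hyp m) : 0 ≤ rd z := hdist_nonneg _ _

theorem cosh_rd (z : Hyp m) : Real.cosh (rd z) = X0 z := cosh_I z

theorem nn_nonneg (z : Hyp m) : 0 ≤ nn z := Real.sqrt_nonneg _

theorem nn_sq (z : Hyp m) : nn z ^ 2 = ‖XX z‖ ^ 2 + XL z ^ 2 := Real.sq_sqrt (by positivity)

theorem sinh_rd (z : Hyp m) : Real.sinh (rd z) = nn z := by
  have h1 := hyp z
  have h2 := nn_sq z
  have h3 := Real.cosh_sq (rd z)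
  rw [cosh_rd] at h3
  have h4 : Real.sinh (rd z) ^ 2 = nn z ^ 2 := by linarith
  have h5 : 0 ≤ Real.sinh (rd z) := Real.sinh_nonneg_iff.2 (rd_nonneg z)
  exact (sq_eq_sq₀ h5 (nn_nonneg z)).1 h4

theorem cosh_hd (z w : Hyp m) : Real.cosh (hdist z w) = X0 z * X0 w - ee z w := cosh_eq z w

theorem ee_self (z : Hyp m) : ee z z = nn z ^ 2 := by
  unfold ee
  rw [real_inner_self_eq_norm_sq, nn_sq]
  ring

theorem ee_comm (z w : Hyp m) : ee z w = ee w z := by
  unfold ee
  rw [real_inner_comm]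
  ring

theorem ee_le (z w : Hyp m) : ee z w ≤ nn z * nn w :=
  cs' z w _ _ (nn_nonneg z) (nn_nonneg w) (nn_sq z).symm (nn_sq w).symm

theorem nn_zero {z : Hyp m} (h : nn z = 0) : XX z = 0 ∧ XL z = 0 := by
  have h1 := nn_sq z
  rw [h] at h1
  have h2 := sq_nonneg ‖XX z‖
  have h3 := sq_nonneg (XL z)
  constructor
  · have : ‖XX z‖ ^ 2 = 0 := by linarith
    exact norm_eq_zero.1 (pow_eq_zero_iff two_ne_zero |>.1 this)
  · have : XL z ^ 2 = 0 := by linarith
    exact pow_eq_zero_iff two_ne_zero |>.1 this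

/-- the point at distance `t` from the origin in the direction of `z` -/
theorem exists_pol (t : ℝ) (z : Hyp m) : ∃ w : Hyp m,
    (nn z ≠ 0 → X0 w = Real.cosh t ∧ XX w = (Real.sinh t / nn z) • XX z ∧
      XL w = Real.sinh t / nn z * XL z) ∧ (nn z = 0 → w = z) := by
  by_cases h : nn z = 0
  · exact ⟨z, fun h' => absurd h h', fun _ => rfl⟩
  · obtain ⟨w, h0, h1, h2⟩ := exists_pt (Real.cosh t) ((Real.sinh t / nn z) • XX z)
      (Real.sinh t / nn z * XL z) (by
        have h3 : ‖(Real.sinh t / nn z) • XX z‖ ^ 2 + (Real.sinh t / nn z * XL z) ^ 2 =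
            Real.sinh t ^ 2 := by
          have h5 := nn_sq z
          rw [norm_smul, Real.norm_eq_abs, mul_pow, sq_abs, mul_pow, ← mul_add, ← h5, div_pow]
          field_simp
        rw [h3, Real.cosh_sq]; ring) (Real.cosh_pos t)
    exact ⟨w, fun _ => ⟨h0, h1, h2⟩, fun h' => absurd h' h⟩

/-- the point at distance `t` from the origin in the direction of `z` -/
noncomputable def PP (t : ℝ) (z : Hyp m) : Hyp m := (exists_pol t z).choose

theorem PP_spec (t : ℝ) (z : Hyp m) : (nn z ≠ 0 → X0 (PP t z) = Real.cosh t ∧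
    XX (PP t z) = (Real.sinh t / nn z) • XX z ∧ XL (PP t z) = Real.sinh t / nn z * XL z) ∧
      (nn z = 0 → PP t z = z) := (exists_pol t z).choose_spec

theorem rd_zero {z : Hyp m} (h : nn z = 0) : rd z = 0 := by
  rw [← sinh_rd] at h
  exact Real.sinh_eq_zero.1 h

theorem nn_zero' {z : Hyp m} (h : rd z = 0) : nn z = 0 := by
  rw [← sinh_rd, h, Real.sinh_zero]

theorem rd_PP {t : ℝ} (ht : 0 ≤ t) (z : Hyp m) : rd (PP t z) ≤ t := by
  by_cases h : nn z = 0
  · rw [(PP_spec t z).2 h, rd_zero h]; exact ht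
  · have h1 := ((PP_spec t z).1 h).1
    rw [← cosh_rd] at h1
    have h2 := Real.cosh_le_cosh.1 h1.le
    rwa [abs_of_nonneg (rd_nonneg _), abs_of_nonneg ht] at h2

theorem hdist_zero {z w : Hyp m} (h : Real.cosh (hdist z w) ≤ 1) : z = w := by
  have h1 : hdist z w = 0 := by
    have h2 : Real.cosh (hdist z w) ≤ Real.cosh 0 := by rwa [Real.cosh_zero]
    have h3 := Real.cosh_le_cosh.1 h2
    rw [abs_zero] at h3
    exact abs_eq_zero.1 (le_antisymm h3 (abs_nonneg _))
  exact dist_eq_zero.1 (h1 : dist z w = 0)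

theorem PP_self (z : Hyp m) : PP (rd z) z = z := by
  by_cases h : nn z = 0
  · exact (PP_spec _ z).2 h
  · obtain ⟨h0, h1, h2⟩ := (PP_spec (rd z) z).1 h
    apply hdist_zero
    rw [cosh_hd, h0, cosh_rd]
    unfold ee
    rw [h1, h2, sinh_rd, div_self h, one_smul, one_mul]
    have h3 := ee_self z
    unfold ee at h3
    have h4 := hyp z
    have h5 := nn_sq z
    nlinarith

/-- the radial direction -/
theorem hd_rad (t t' : ℝ) (z : Hyp m) : hdist (PP t z) (PP t' z) ≤ |t - t'| := by
  by_cases h : nn z = 0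
  · rw [(PP_spec t z).2 h, (PP_spec t' z).2 h]
    have : hdist z z = 0 := (dist_self z : dist z z = 0)
    rw [this]; exact abs_nonneg _
  · obtain ⟨h0, h1, h2⟩ := (PP_spec t z).1 h
    obtain ⟨h0', h1', h2'⟩ := (PP_spec t' z).1 h
    refine cosh_le (hdist_nonneg _ _) (abs_nonneg _) ?_
    rw [cosh_hd, h0, h0', Real.cosh_abs, Real.cosh_sub]
    have h3 : ee (PP t z) (PP t' z) = Real.sinh t * Real.sinh t' := by
      unfold ee
      rw [h1, h2, h1', h2', real_inner_smul_left, real_inner_smul_right]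
      have h3 := ee_self z
      unfold ee at h3
      have : Real.sinh t / nn z * (Real.sinh t' / nn z * ⟪XX z, XX z⟫) +
          Real.sinh t / nn z * XL z * (Real.sinh t' / nn z * XL z) =
          Real.sinh t / nn z * (Real.sinh t' / nn z) * (⟪XX z, XX z⟫ + XL z * XL z) := by ring
      rw [this, h3]
      field_simp
    rw [h3]

theorem sinh_scale {l u : ℝ} (hl : 0 ≤ l) (hl1 : l ≤ 1) (hu : 0 ≤ u) :
    Real.sinh (l * u) ≤ l * Real.sinh u := by
  -- `sinh` is convex on `[0, ∞)`
  have hconv : ConvexOn ℝ (Set.Ici (0:ℝ)) Real.sinh := by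
    apply convexOn_of_deriv2_nonneg (convex_Ici 0) Real.continuous_sinh.continuousOn
    · exact Real.differentiable_sinh.differentiableOn
    · rw [Real.deriv_sinh]
      exact Real.differentiable_cosh.differentiableOn
    · intro x hx
      rw [interior_Ici] at hx
      have : deriv^[2] Real.sinh x = Real.sinh x := by
        simp [Real.deriv_sinh, Real.deriv_cosh]
      rw [this]
      exact Real.sinh_nonneg_iff.2 (le_of_lt hx)
  have h := hconv.2 (x := u) (y := 0) (Set.mem_Ici.2 hu) (Set.mem_Ici.2 le_rfl) hl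
    (by linarith : 0 ≤ 1 - l) (by ring)
  simpa using h

theorem cosh_half (x : ℝ) : Real.cosh x = 1 + 2 * Real.sinh (x / 2) ^ 2 := by
  have h := Real.cosh_two_mul (x / 2)
  rw [show 2 * (x / 2) = x by ring] at h
  have h2 := Real.cosh_sq (x / 2)
  linarith

theorem cosh_scale {l u v : ℝ} (hl : 0 ≤ l) (hl1 : l ≤ 1) (h : |v| ≤ l * |u|) :
    Real.cosh v - 1 ≤ l ^ 2 * (Real.cosh u - 1) := by
  have h1 : Real.cosh v ≤ Real.cosh (l * |u|) := by
    rw [Real.cosh_le_cosh]
    rwa [abs_of_nonneg (by positivity : 0 ≤ l * |u|)]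
  have h2 : Real.cosh (l * |u|) = 1 + 2 * Real.sinh (l * (|u| / 2)) ^ 2 := by
    rw [cosh_half]
    congr 3
    ring_nf
  have h3 : Real.cosh u = 1 + 2 * Real.sinh (|u| / 2) ^ 2 := by
    rw [← Real.cosh_abs, cosh_half]
  have h4 := sinh_scale hl hl1 (by positivity : 0 ≤ |u| / 2)
  have h5 : 0 ≤ Real.sinh (l * (|u| / 2)) := Real.sinh_nonneg_iff.2 (by positivity)
  have h6 : Real.sinh (l * (|u| / 2)) ^ 2 ≤ (l * Real.sinh (|u| / 2)) ^ 2 := pow_le_pow_left₀ h5 h4 2
  rw [mul_pow] at h6
  rw [h3]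
  rw [h2] at h1
  nlinarith

/-- the main contraction estimate -/
theorem contr {l t t' : ℝ} {z w : Hyp m} (hl : 0 ≤ l) (hl1 : l ≤ 1) (ht : 0 ≤ t) (ht' : 0 ≤ t')
    (h : |t - t'| ≤ l * |rd z - rd w|) (hs : Real.sinh t ≤ l * Real.sinh (rd z))
    (hs' : Real.sinh t' ≤ l * Real.sinh (rd w)) :
    Real.cosh (hdist (PP t z) (PP t' w)) - 1 ≤ l ^ 2 * (Real.cosh (hdist z w) - 1) := by
  have h0 := cosh_scale hl hl1 h
  have s0 : 0 ≤ Real.sinh t := Real.sinh_nonneg_iff.2 ht
  have s0' : 0 ≤ Real.sinh t' := Real.sinh_nonneg_iff.2 ht'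
  rw [Real.cosh_sub, Real.cosh_sub, cosh_rd, cosh_rd, sinh_rd, sinh_rd] at h0
  rw [sinh_rd] at hs hs'
  rw [cosh_hd, cosh_hd]
  by_cases hz : nn z = 0
  · -- z is the origin
    obtain ⟨a1, a2⟩ := nn_zero hz
    have hz0 : X0 z = 1 := by rw [← cosh_rd, rd_zero hz, Real.cosh_zero]
    have ht0 : t = 0 := by
      rw [hz, mul_zero] at hs
      exact Real.sinh_eq_zero.1 (le_antisymm hs s0)
    have e1 : ∀ v : Hyp m, ee z v = 0 := by
      intro v
      unfold ee
      rw [a1, a2, inner_zero_left]; ring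
    rw [(PP_spec t z).2 hz, e1, e1, hz0, sub_zero, sub_zero]
    rw [hz, hz0, ht0, Real.sinh_zero, Real.cosh_zero] at h0
    by_cases hw : nn w = 0
    · rw [(PP_spec t' w).2 hw]
      have hw0 : X0 w = 1 := by rw [← cosh_rd, rd_zero hw, Real.cosh_zero]
      rw [hw0]; norm_num
    · rw [((PP_spec t' w).1 hw).1]
      linarith
  · by_cases hw : nn w = 0
    · obtain ⟨a1, a2⟩ := nn_zero hw
      have hw0 : X0 w = 1 := by rw [← cosh_rd, rd_zero hw, Real.cosh_zero]
      have ht0 : t' = 0 := by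
        rw [hw, mul_zero] at hs'
        exact Real.sinh_eq_zero.1 (le_antisymm hs' s0')
      have e1 : ∀ v : Hyp m, ee v w = 0 := by
        intro v
        unfold ee
        rw [a1, a2, inner_zero_right]; ring
      rw [(PP_spec t' w).2 hw, e1, e1, hw0, sub_zero, sub_zero]
      rw [hw, hw0, ht0, Real.sinh_zero, Real.cosh_zero] at h0
      rw [((PP_spec t z).1 hz).1]
      linarith
    · obtain ⟨b0, b1, b2⟩ := (PP_spec t z).1 hz
      obtain ⟨c0, c1, c2⟩ := (PP_spec t' w).1 hw
      have hzp : 0 < nn z := lt_of_le_of_ne (nn_nonneg z) (Ne.symm hz)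
      have hwp : 0 < nn w := lt_of_le_of_ne (nn_nonneg w) (Ne.symm hw)
      have e1 : ee (PP t z) (PP t' w) = Real.sinh t * Real.sinh t' * (ee z w / (nn z * nn w)) := by
        unfold ee
        rw [b1, b2, c1, c2, real_inner_smul_left, real_inner_smul_right]
        field_simp
      set g := ee z w / (nn z * nn w) with hg
      have hg1 : g ≤ 1 := by
        rw [hg, div_le_one (by positivity)]
        exact ee_le z w
      have e2 : ee z w = nn z * nn w * g := by
        rw [hg]; field_simp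
      rw [b0, c0, e1, e2]
      have h7 : Real.sinh t * Real.sinh t' ≤ (l * nn z) * (l * nn w) :=
        mul_le_mul hs hs' s0' (by positivity)
      have h8 : Real.sinh t * Real.sinh t' * (1 - g) ≤ (l * nn z) * (l * nn w) * (1 - g) :=
        mul_le_mul_of_nonneg_right h7 (by linarith)
      nlinarith

/-- non-expanding radial maps -/
theorem contr_one {t t' : ℝ} {z w : Hyp m} (ht : 0 ≤ t) (ht' : 0 ≤ t')
    (h : |t - t'| ≤ |rd z - rd w|) (hs : t ≤ rd z) (hs' : t' ≤ rd w) :
    hdist (PP t z) (PP t' w) ≤ hdist z w := by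
  have h1 := contr (l := 1) (z := z) (w := w) zero_le_one le_rfl ht ht' (by rwa [one_mul])
    (by rw [one_mul]; exact Real.sinh_le_sinh.2 hs) (by rw [one_mul]; exact Real.sinh_le_sinh.2 hs')
  refine cosh_le (hdist_nonneg _ _) (hdist_nonneg _ _) ?_
  linarith

/-- contracting radial maps at bounded distances -/
theorem contr_small {l t t' D : ℝ} {z w : Hyp m} (hl : 0 ≤ l) (hl1 : l ≤ 1) (ht : 0 ≤ t)
    (ht' : 0 ≤ t') (h : |t - t'| ≤ l * |rd z - rd w|) (hs : Real.sinh t ≤ l * Real.sinh (rd z))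
    (hs' : Real.sinh t' ≤ l * Real.sinh (rd w)) (hD : hdist z w ≤ D) :
    hdist (PP t z) (PP t' w) ≤ l * Real.cosh D * hdist z w := by
  have h1 := contr hl hl1 ht ht' h hs hs'
  have hn := hdist_nonneg z w
  have hn' := hdist_nonneg (PP t z) (PP t' w)
  rw [cosh_half, cosh_half (hdist z w)] at h1
  have h2 : Real.sinh (hdist (PP t z) (PP t' w) / 2) ^ 2 ≤ (l * Real.sinh (hdist z w / 2)) ^ 2 := by
    rw [mul_pow]; linarith
  have h3 : 0 ≤ Real.sinh (hdist z w / 2) := Real.sinh_nonneg_iff.2 (by positivity)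
  have h4 := (abs_le_of_sq_le_sq' h2 (by positivity)).2
  have h5 : hdist (PP t z) (PP t' w) / 2 ≤ Real.sinh (hdist (PP t z) (PP t' w) / 2) :=
    Real.self_le_sinh_iff.2 (by positivity)
  have h6 : Real.sinh (hdist z w / 2) ≤ hdist z w / 2 * Real.cosh D := by
    have hx : 0 ≤ hdist z w / 2 := by positivity
    -- sinh x ≤ x cosh x
    have h7 : Real.sinh (hdist z w / 2) ≤ hdist z w / 2 * Real.cosh (hdist z w / 2) := by
      set x := hdist z w / 2
      rcases hx.eq_or_lt with h0 | h0
      · rw [← h0]; simp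
      · obtain ⟨c, hc, hc2⟩ := exists_deriv_eq_slope Real.sinh h0
          Real.continuous_sinh.continuousOn Real.differentiable_sinh.differentiableOn
        rw [Real.deriv_sinh, Real.sinh_zero, sub_zero, sub_zero] at hc2
        have h8 : Real.cosh c ≤ Real.cosh x := by
          rw [Real.cosh_le_cosh, abs_of_pos hc.1, abs_of_pos h0]; exact hc.2.le
        rw [hc2, div_le_iff₀ h0] at h8
        linarith
    have h8 : Real.cosh (hdist z w / 2) ≤ Real.cosh D := by
      rw [Real.cosh_le_cosh, abs_of_nonneg hx, abs_of_nonneg (hn.trans hD)]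
      linarith
    exact h7.trans (mul_le_mul_of_nonneg_left h8 hx)
  have h7 := mul_le_mul_of_nonneg_left h6 hl
  linarith

/-! ### Geodesics -/

theorem sinh_id (x y : ℝ) : Real.sinh x ^ 2 + Real.sinh y ^ 2 +
    2 * Real.sinh x * Real.sinh y * Real.cosh (x + y) = Real.sinh (x + y) ^ 2 := by
  rw [Real.cosh_add, Real.sinh_add]
  have h1 := Real.cosh_sq x
  have h2 := Real.cosh_sq y
  have e : (Real.sinh x * Real.cosh y + Real.cosh x * Real.sinh y) ^ 2 =
    Real.sinh x ^ 2 * Real.cosh y ^ 2 + Real.cosh x ^ 2 * Real.sinh y ^ 2 +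
      2 * Real.sinh x * Real.sinh y * (Real.cosh x * Real.cosh y) := by ring
  rw [e, h1, h2]
  ring

theorem geo (z w : Hyp m) {x y : ℝ} (hx : 0 ≤ x) (hy : 0 ≤ y) (hxy : x + y = hdist z w) :
    ∃ v : Hyp m, hdist z v = y ∧ hdist v w = x ∧
      X0 v * Real.sinh (x + y) = Real.sinh x * X0 z + Real.sinh y * X0 w := by
  rcases (hdist_nonneg z w).eq_or_lt with h0 | h0
  · have hx0 : x = 0 := by linarith
    have hy0 : y = 0 := by linarith
    refine ⟨z, ?_, ?_, ?_⟩
    · rw [hy0]; exact (dist_self z : dist z z = 0)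
    · rw [hx0, h0]
    · rw [hx0, hy0]; simp
  · have hs : 0 < Real.sinh (x + y) := Real.sinh_pos_iff.2 (by rw [hxy]; exact h0)
    have hsx : 0 ≤ Real.sinh x := Real.sinh_nonneg_iff.2 hx
    have hsy : 0 ≤ Real.sinh y := Real.sinh_nonneg_iff.2 hy
    set D := Real.sinh (x + y) with hD
    set α := Real.sinh x / D with hα
    set β := Real.sinh y / D with hβ
    have hα0 : 0 ≤ α := by positivity
    have hβ0 : 0 ≤ β := by positivity
    have hid : α ^ 2 + β ^ 2 + 2 * α * β * Real.cosh (x + y) = 1 := by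
      have := sinh_id x y
      rw [← hD] at this
      rw [hα, hβ]
      field_simp
      linarith
    have hc := cosh_hd z w
    rw [← hxy] at hc
    have hz := hyp z
    have hw := hyp w
    have hαβ : 0 < α + β := by
      by_contra hcon
      push Not at hcon
      have h1 : α = 0 := by linarith
      have h2 : β = 0 := by linarith
      rw [h1, h2] at hid
      norm_num at hid
    have hz1 := one_le_X0 z
    have hw1 := one_le_X0 w
    have hn1 : ‖α • XX z + β • XX w‖ ^ 2 = α ^ 2 * ‖XX z‖ ^ 2 + 2 * α * β * ⟪XX z, XX w⟫ +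
        β ^ 2 * ‖XX w‖ ^ 2 := by
      rw [norm_add_sq_real, norm_smul, norm_smul, real_inner_smul_left, real_inner_smul_right,
        mul_pow, mul_pow, Real.norm_eq_abs, Real.norm_eq_abs, sq_abs, sq_abs]
      ring
    obtain ⟨v, v0, v1, v2⟩ := exists_pt (α * X0 z + β * X0 w) (α • XX z + β • XX w)
      (α * XL z + β * XL w) (by
        rw [hn1]
        unfold ee at hc
        have e1 : (α * X0 z + β * X0 w) ^ 2 = α ^ 2 * X0 z ^ 2 + β ^ 2 * X0 w ^ 2 +
          2 * α * β * (X0 z * X0 w) := by ring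
        have e2 : X0 z * X0 w = Real.cosh (x + y) + (⟪XX z, XX w⟫ + XL z * XL w) := by linarith
        rw [e1, hz, hw, e2]
        linear_combination hid) (by nlinarith)
    have hee : ∀ u : Hyp m, ee u v = α * ee u z + β * ee u w := by
      intro u
      unfold ee
      rw [v1, v2, inner_add_right, real_inner_smul_right, real_inner_smul_right]
      ring
    have c1 : Real.cosh (hdist z v) = Real.cosh y := by
      rw [cosh_hd, hee, v0, ee_self]
      have h1 : X0 z ^ 2 - nn z ^ 2 = 1 := by rw [hz, nn_sq]; ring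
      have h2 : X0 z * (α * X0 z + β * X0 w) - (α * nn z ^ 2 + β * ee z w) =
        α * (X0 z ^ 2 - nn z ^ 2) + β * (X0 z * X0 w - ee z w) := by ring
      rw [h2, h1, ← hc, hα, hβ, mul_one]
      have h3 : Real.sinh x = D * Real.cosh y - Real.cosh (x + y) * Real.sinh y := by
        rw [hD, ← Real.sinh_sub]; congr 1; ring
      rw [h3]
      field_simp
      ring
    have c2 : Real.cosh (hdist v w) = Real.cosh x := by
      rw [cosh_hd, ee_comm v w, hee, v0, ee_self, ee_comm w z]
      have h1 : X0 w ^ 2 - nn w ^ 2 = 1 := by rw [hw, nn_sq]; ring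
      have h2 : (α * X0 z + β * X0 w) * X0 w - (α * ee z w + β * nn w ^ 2) =
        β * (X0 w ^ 2 - nn w ^ 2) + α * (X0 z * X0 w - ee z w) := by ring
      rw [h2, h1, ← hc, hα, hβ, mul_one]
      have h3 : Real.sinh y = D * Real.cosh x - Real.cosh (x + y) * Real.sinh x := by
        rw [hD, ← Real.sinh_sub]; congr 1; ring
      rw [h3]
      field_simp
      ring
    refine ⟨v, ?_, ?_, ?_⟩
    · exact le_antisymm (cosh_le (hdist_nonneg _ _) hy c1.le) (cosh_le hy (hdist_nonneg _ _) c1.ge)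
    · exact le_antisymm (cosh_le (hdist_nonneg _ _) hx c2.le) (cosh_le hx (hdist_nonneg _ _) c2.ge)
    · rw [v0, hα, hβ]
      field_simp

/-- a point of the geodesic at a prescribed distance from the origin -/
theorem cross {z w : Hyp m} {a : ℝ} (hz : rd z ≤ a) (hw : a ≤ rd w) :
    ∃ v : Hyp m, rd v = a ∧ hdist z v + hdist v w = hdist z w := by
  have ha : 0 ≤ a := (rd_nonneg z).trans hz
  set d := hdist z w with hd
  have hd0 : 0 ≤ d := hdist_nonneg _ _
  rcases hd0.eq_or_lt with h0 | h0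
  · have : z = w := dist_eq_zero.1 (h0.symm : dist z w = 0)
    subst this
    have hzz : hdist z z = 0 := (dist_self z : dist z z = 0)
    refine ⟨z, le_antisymm hz hw, ?_⟩
    rw [hzz, ← h0, add_zero]
  · let f : ℝ → ℝ := fun y => Real.sinh (d - y) * X0 z + Real.sinh y * X0 w
    have hf : Continuous f := by
      have h1 : Continuous fun y : ℝ => Real.sinh (d - y) :=
        Real.continuous_sinh.comp (continuous_const.sub continuous_id)
      exact (h1.mul continuous_const).add (Real.continuous_sinh.mul continuous_const)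
    have hs : 0 < Real.sinh d := Real.sinh_pos_iff.2 h0
    have h1 := intermediate_value_Icc hd0 hf.continuousOn
    have h2 : Real.cosh a * Real.sinh d ∈ Set.Icc (f 0) (f d) := by
      constructor
      · simp only [f, sub_zero, Real.sinh_zero, zero_mul, add_zero]
        rw [mul_comm]
        apply mul_le_mul_of_nonneg_right _ hs.le
        rw [← cosh_rd, Real.cosh_le_cosh, abs_of_nonneg (rd_nonneg z), abs_of_nonneg ha]
        exact hz
      · simp only [f, sub_self, Real.sinh_zero, zero_mul, zero_add]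
        rw [mul_comm]
        apply mul_le_mul_of_nonneg_left _ hs.le
        rw [← cosh_rd, Real.cosh_le_cosh, abs_of_nonneg (rd_nonneg w), abs_of_nonneg ha]
        exact hw
    obtain ⟨y, hy, hfy⟩ := h1 h2
    obtain ⟨v, k1, k2, k3⟩ := geo z w (x := d - y) (y := y) (by linarith [hy.2]) hy.1 (by ring)
    refine ⟨v, ?_, by rw [k1, k2]; ring⟩
    rw [show d - y + y = d by ring] at k3
    have h4 : X0 v * Real.sinh d = Real.cosh a * Real.sinh d := by rw [k3]; exact hfy
    have h5 := mul_right_cancel₀ hs.ne' h4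
    rw [← cosh_rd] at h5
    exact le_antisymm (cosh_le (rd_nonneg _) ha h5.le) (cosh_le ha (rd_nonneg _) h5.ge)

/-- local to global -/
theorem loc_glob {S : Type} [MetricSpace S] {f : Hyp m → S} {ε : ℝ} (hε : 0 < ε)
    (h : ∀ z w, hdist z w < ε → dist (f z) (f w) ≤ hdist z w) :
    ∀ z w, dist (f z) (f w) ≤ hdist z w := by
  have key : ∀ (n : ℕ) z w, hdist z w < 2 ^ n * ε → dist (f z) (f w) ≤ hdist z w := by
    intro n
    induction n with
    | zero => intro z w hzw; exact h z w (by simpa using hzw)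
    | succ n ih =>
      intro z w hzw
      have h0 := hdist_nonneg z w
      obtain ⟨v, k1, k2, -⟩ := geo z w (x := hdist z w / 2) (y := hdist z w / 2) (by positivity)
        (by positivity) (by ring)
      have e : (2:ℝ) ^ (n + 1) * ε = 2 * (2 ^ n * ε) := by ring
      rw [e] at hzw
      have h1 := ih z v (by rw [k1]; linarith)
      have h2 := ih v w (by rw [k2]; linarith)
      have h3 := dist_triangle (f z) (f v) (f w)
      rw [k1] at h1
      rw [k2] at h2
      linarith
  intro z w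
  obtain ⟨n, hn⟩ := pow_unbounded_of_one_lt (hdist z w / ε) (one_lt_two)
  apply key n z w
  rwa [div_lt_iff₀ hε] at hn

end Pool.Agent.Helper81.LN
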