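import Mathlib
import Pool.Agent.Helper81.LN.Polar
import Pool.Graph.R_seed8.H946R3.LN.Sweep

/-! MP_e25190_gt: from a null-homotopy which is Lipschitz in all variables to a null-homotopy
through 1-Lipschitz maps: the radial front. -/

set_option autoImplicit false

open scoped NNReal ENNReal
open Pool.Agent.H261R3.LH (Lip1 clip clip_nonneg)
open Pool.Agent.H261R3.LN
open Pool.Agent.H261R3.LN.Retr
open Pool.Agent.H946R3.LN (clip_lip clip_le_one clip_mono evar_le)

namespace Pool.Agent.Helper81.LN

variable {m : ℕ} {S : Type} [MetricSpace S]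

theorem fclip_one {x : ℝ} (h : 1 ≤ x) : clip x = 1 := by
  unfold clip
  rw [min_eq_left h, max_eq_right zero_le_one]

theorem fclip_nonpos {x : ℝ} (h : x ≤ 0) : clip x = 0 := by
  unfold clip
  rw [min_eq_right (by linarith), max_eq_left h]

theorem fclip_id {x : ℝ} (h : 0 ≤ x) (h' : x ≤ 1) : clip x = x := by
  unfold clip
  rw [min_eq_right h', max_eq_right h]

/-- position function -/
noncomputable def phi (M Λ l s r : ℝ) : ℝ :=
  max 0 (r - max 0 (min Λ (s + M + Λ)) + (1 - l) * max 0 (s + M - r))

theorem phi_nonneg (M Λ l s r : ℝ) : 0 ≤ phi M Λ l s r := le_max_left _ _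

/-- the front homotopy -/
noncomputable def GG (H : ℝ → Hyp m → S) (M Λ l s : ℝ) (z : Hyp m) : S :=
  H (clip ((s + M - rd z) / M)) (PP (phi M Λ l s (rd z)) z)

theorem phi_outer {M Λ l s r : ℝ} (h : s + M ≤ r) :
    phi M Λ l s r = max 0 (r - max 0 (min Λ (s + M + Λ))) := by
  unfold phi
  rw [max_eq_left (by linarith : s + M - r ≤ 0), mul_zero, add_zero]

theorem phi_in {M Λ l s r : ℝ} (hΛ : 0 ≤ Λ) (h0 : 0 ≤ s + M) (h : r ≤ s + M) :
    phi M Λ l s r = max 0 (r - Λ + (1 - l) * (s + M - r)) := by
  unfold phi
  rw [max_eq_right (by linarith : 0 ≤ s + M - r), min_eq_left (by linarith), max_eq_right hΛ]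

theorem rd_sub (z w : Hyp m) : |rd z - rd w| ≤ hdist z w := by
  have h1 : dist z (origin m) ≤ dist z w + dist w (origin m) := dist_triangle _ _ _
  have h2 : dist w (origin m) ≤ dist w z + dist z (origin m) := dist_triangle _ _ _
  rw [dist_comm w z] at h2
  change rd z ≤ hdist z w + rd w at h1
  change rd w ≤ hdist z w + rd z at h2
  rw [abs_le]
  constructor <;> linarith

theorem max_zero_sub (a b : ℝ) : |max 0 a - max 0 b| ≤ |a - b| := by
  refine (abs_max_sub_max_le_max _ _ _ _).trans (max_le ?_ le_rfl)
  rw [sub_self, abs_zero]; exact abs_nonneg _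

theorem sinh_shift {r Λ l : ℝ} (hr : 0 ≤ r) (hΛ : 0 ≤ Λ) (hl : Real.exp (-Λ) ≤ l) :
    Real.sinh (max 0 (r - Λ)) ≤ l * Real.sinh r := by
  have hl0 : 0 ≤ l := (Real.exp_pos _).le.trans hl
  have hs : 0 ≤ Real.sinh r := Real.sinh_nonneg_iff.2 hr
  rcases le_total (r - Λ) 0 with h | h
  · rw [max_eq_left h, Real.sinh_zero]; positivity
  · rw [max_eq_right h]
    refine le_trans ?_ (mul_le_mul_of_nonneg_right hl hs)
    rw [Real.sinh_eq, Real.sinh_eq]
    have e1 : Real.exp (r - Λ) = Real.exp (-Λ) * Real.exp r := by
      rw [← Real.exp_add]; congr 1; ring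
    have e2 : Real.exp (-Λ) * Real.exp (-r) ≤ Real.exp (-(r - Λ)) := by
      rw [← Real.exp_add]
      exact Real.exp_le_exp.2 (by linarith)
    rw [e1]
    linarith

/-- The front argument. -/
theorem front (Δ : ℝ) (hΔ : ∀ a b : S, dist a b ≤ Δ) (p : S) (C : ℝ) :
    ∃ D : ℝ, 0 ≤ D ∧ ∀ (R : ℝ) (F : Hyp m → S), (∀ z w, dist (F z) (F w) ≤ hdist z w) →
      ∀ H : ℝ → Hyp m → S, (∀ t z w, dist (H t z) (H t w) ≤ C * hdist z w) →
      (∀ z, hdist z (origin m) ≤ R → Lip1 C (fun t => H t z)) →
      (∀ z, hdist z (origin m) ≤ R → H 0 z = F z) →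
      (∀ z, hdist z (origin m) ≤ R → H 1 z = p) →
      ∃ G : ℝ → Hyp m → S,
        (∀ t z w, hdist z (origin m) ≤ R → hdist w (origin m) ≤ R →
          dist (G t z) (G t w) ≤ hdist z w) ∧
        (∀ z, hdist z (origin m) ≤ R → Continuous (fun t => G t z)) ∧
        (∀ z, hdist z (origin m) ≤ R →
          eVariationOn (fun t => G t z) Set.univ ≤ ENNReal.ofReal D) ∧
        (∀ z, hdist z (origin m) ≤ R → G 0 z = F z) ∧
        ∀ z, hdist z (origin m) ≤ R → G 1 z = p := by
  -- constants
  set K : ℝ := max C 1 with hK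
  have hK1 : 1 ≤ K := le_max_right _ _
  have hCK : C ≤ K := le_max_left _ _
  set c : ℝ := Real.cosh Δ with hc
  have hc1 : 1 ≤ c := Real.one_le_cosh Δ
  set M : ℝ := 2 * K with hM
  have hM0 : 0 < M := by linarith
  set l : ℝ := 1 / (2 * K * c) with hl
  have hKc : 1 ≤ K * c := by nlinarith
  have hl0 : 0 < l := by positivity
  have hl1 : l ≤ 1 := by
    rw [hl, div_le_one (by positivity)]
    nlinarith
  set Λ' : ℝ := -Real.log l with hΛ'
  have hΛ'0 : 0 ≤ Λ' := by
    have := Real.log_nonpos hl0.le hl1
    linarith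
  have hexp : Real.exp (-Λ') ≤ l := by
    rw [hΛ', neg_neg, Real.exp_log hl0]
  set Λ : ℝ := Λ' + M with hΛ
  have hΛ0 : 0 ≤ Λ := by linarith
  have hΛM : M ≤ Λ := by linarith
  refine ⟨K * (Λ + (1 + M)), by positivity, ?_⟩
  intro R F hF H hHx hHt hH0 hH1
  -- phi stays in the ball
  have hball : ∀ s r, 0 ≤ r → r ≤ R → s ≤ R → phi M Λ l s r ≤ R := by
    intro s r hr hrR hsR
    unfold phi
    apply max_le (hr.trans hrR)
    rcases le_total (s + M) r with h | h
    · rw [max_eq_left (by linarith : s + M - r ≤ 0)]
      have := le_max_left (0:ℝ) (min Λ (s + M + Λ))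
      linarith
    · have h2 : 0 ≤ s + M := hr.trans h
      rw [max_eq_right (by linarith : 0 ≤ s + M - r), min_eq_left (by linarith), max_eq_right hΛ0]
      nlinarith
  have hPP : ∀ s z, rd z ≤ R → s ≤ R → hdist (PP (phi M Λ l s (rd z)) z) (origin m) ≤ R := by
    intro s z hz hs
    exact (rd_PP (phi_nonneg _ _ _ _ _) z).trans (hball s _ (rd_nonneg z) hz hs)
  have hHxK : ∀ t z w, dist (H t z) (H t w) ≤ K * hdist z w := fun t z w =>
    (hHx t z w).trans (mul_le_mul_of_nonneg_right hCK (hdist_nonneg z w))
  have hHtK : ∀ z, hdist z (origin m) ≤ R → ∀ t t', dist (H t z) (H t' z) ≤ K * |t - t'| :=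
    fun z hz t t' => (hHt z hz t t').trans (mul_le_mul_of_nonneg_right hCK (abs_nonneg _))
  -- outer region
  have outer : ∀ s z w, s ≤ R → rd z ≤ R → rd w ≤ R → s + M ≤ rd z → s + M ≤ rd w →
      dist (GG H M Λ l s z) (GG H M Λ l s w) ≤ hdist z w := by
    intro s z w hs hz hw h1 h2
    have e : ∀ v, rd v ≤ R → s + M ≤ rd v → GG H M Λ l s v = F (PP (phi M Λ l s (rd v)) v) := by
      intro v hv h
      unfold GG
      rw [fclip_nonpos (div_nonpos_of_nonpos_of_nonneg (by linarith) hM0.le)]
      exact hH0 _ (hPP s v hv hs)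
    rw [e z hz h1, e w hw h2]
    refine (hF _ _).trans ?_
    apply contr_one (phi_nonneg _ _ _ _ _) (phi_nonneg _ _ _ _ _)
    · rw [phi_outer h1, phi_outer h2]
      refine (max_zero_sub _ _).trans (le_of_eq ?_)
      congr 1; ring
    · rw [phi_outer h1]
      apply max_le (rd_nonneg z)
      linarith [le_max_left (0:ℝ) (min Λ (s + M + Λ))]
    · rw [phi_outer h2]
      apply max_le (rd_nonneg w)
      linarith [le_max_left (0:ℝ) (min Λ (s + M + Λ))]
  -- inner region
  have inner : ∀ s z, s ≤ R → rd z ≤ R → rd z ≤ s → GG H M Λ l s z = p := by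
    intro s z hs hz h
    unfold GG
    rw [fclip_one (by rw [le_div_iff₀ hM0]; linarith)]
    exact hH1 _ (hPP s z hz hs)
  -- middle region
  have middle : ∀ s z w, s ≤ R → rd z ≤ R → rd w ≤ R → s ≤ rd z → rd z ≤ s + M → s ≤ rd w →
      rd w ≤ s + M → dist (GG H M Λ l s z) (GG H M Λ l s w) ≤ hdist z w := by
    intro s z w hs hz hw h1 h2 h3 h4
    rcases le_total Δ (hdist z w) with hd | hd
    · exact (hΔ _ _).trans hd
    have hsM : 0 ≤ s + M := (rd_nonneg z).trans h2
    have hph : ∀ v : Hyp m, s ≤ rd v → rd v ≤ s + M → Real.sinh (phi M Λ l s (rd v)) ≤ l * Real.sinh (rd v) := by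
      intro v hv1 hv2
      refine le_trans (Real.sinh_le_sinh.2 ?_) (sinh_shift (rd_nonneg v) hΛ'0 hexp)
      rw [phi_in hΛ0 hsM hv2]
      apply max_le_max le_rfl
      nlinarith
    have hrad : |phi M Λ l s (rd z) - phi M Λ l s (rd w)| ≤ l * |rd z - rd w| := by
      rw [phi_in hΛ0 hsM h2, phi_in hΛ0 hsM h4]
      refine (max_zero_sub _ _).trans (le_of_eq ?_)
      have e : rd z - Λ + (1 - l) * (s + M - rd z) - (rd w - Λ + (1 - l) * (s + M - rd w)) =
        l * (rd z - rd w) := by ring
      rw [e, abs_mul, abs_of_pos hl0]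
    have h5 := contr_small hl0.le hl1 (phi_nonneg _ _ _ _ _) (phi_nonneg _ _ _ _ _) hrad
      (hph z h1 h2) (hph w h3 h4) hd
    set Pz := PP (phi M Λ l s (rd z)) z
    set Pw := PP (phi M Λ l s (rd w)) w
    have h6 : dist (GG H M Λ l s z) (GG H M Λ l s w) ≤
        K * |clip ((s + M - rd z) / M) - clip ((s + M - rd w) / M)| + K * hdist Pz Pw := by
      refine (dist_triangle (H (clip ((s + M - rd z) / M)) Pz) (H (clip ((s + M - rd w) / M)) Pz)
        (H (clip ((s + M - rd w) / M)) Pw)).trans ?_
      exact add_le_add (hHtK Pz (hPP s z hz hs) _ _) (hHxK _ _ _)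
    have h7 : |clip ((s + M - rd z) / M) - clip ((s + M - rd w) / M)| ≤ hdist z w / M := by
      refine (clip_lip _ _).trans ?_
      have e : (s + M - rd z) / M - (s + M - rd w) / M = -((rd z - rd w) / M) := by
        field_simp; ring
      rw [e, abs_neg, abs_div, abs_of_pos hM0]
      exact div_le_div_of_nonneg_right (rd_sub z w) hM0.le
    have h8 : K * (hdist z w / M) = hdist z w / 2 := by
      rw [hM]; field_simp
    have h9 : K * (l * Real.cosh Δ * hdist z w) = hdist z w / 2 := by
      rw [← hc, hl]; field_simp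
    have h10 : K * |clip ((s + M - rd z) / M) - clip ((s + M - rd w) / M)| ≤ K * (hdist z w / M) :=
      mul_le_mul_of_nonneg_left h7 (by linarith)
    have h11 : K * hdist Pz Pw ≤ K * (l * Real.cosh Δ * hdist z w) :=
      mul_le_mul_of_nonneg_left h5 (by linarith)
    linarith
  -- everything
  have low : ∀ s z w, s ≤ R → rd w ≤ R → rd z ≤ rd w → rd w ≤ s + M →
      dist (GG H M Λ l s z) (GG H M Λ l s w) ≤ hdist z w := by
    intro s z w hs hw hzw h1
    rcases le_total (rd w) s with h2 | h2
    · rw [inner s z hs (hzw.trans hw) (hzw.trans h2), inner s w hs hw h2, dist_self]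
      exact hdist_nonneg z w
    · rcases le_total (rd z) s with h3 | h3
      · obtain ⟨v, hv, hvd⟩ := cross h3 h2
        have e1 : GG H M Λ l s z = GG H M Λ l s v := by
          rw [inner s z hs (hzw.trans hw) h3, inner s v hs (by linarith) hv.le]
        rw [e1]
        have := middle s v w hs (by linarith) hw hv.ge (by linarith) h2 h1
        have := hdist_nonneg z v
        linarith
      · exact middle s z w hs (hzw.trans hw) hw h3 (hzw.trans h1) h2 h1
  have all' : ∀ s z w, s ≤ R → rd w ≤ R → rd z ≤ rd w →
      dist (GG H M Λ l s z) (GG H M Λ l s w) ≤ hdist z w := by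
    intro s z w hs hw hzw
    rcases le_total (rd w) (s + M) with h1 | h1
    · exact low s z w hs hw hzw h1
    · rcases le_total (rd z) (s + M) with h2 | h2
      · obtain ⟨v, hv, hvd⟩ := cross h2 h1
        have a1 := low s z v hs (by linarith) (by linarith) hv.le
        have a2 := outer s v w hs (by linarith) hw hv.ge h1
        have := dist_triangle (GG H M Λ l s z) (GG H M Λ l s v) (GG H M Λ l s w)
        linarith
      · exact outer s z w hs (hzw.trans hw) hw h2 h1
  have all : ∀ s z w, s ≤ R → rd z ≤ R → rd w ≤ R →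
      dist (GG H M Λ l s z) (GG H M Λ l s w) ≤ hdist z w := by
    intro s z w hs hz hw
    rcases le_total (rd z) (rd w) with h | h
    · exact all' s z w hs hw h
    · have := all' s w z hs hz h
      rwa [dist_comm, hdist_comm w z] at this
  -- tracks
  have track : ∀ z, rd z ≤ R → ∀ s s', s ≤ s' → s' ≤ R →
      dist (GG H M Λ l s z) (GG H M Λ l s' z) ≤
        K * (max 0 (min Λ (s' + M + Λ)) + (1 + M) * clip ((s' + M - rd z) / M)) -
        K * (max 0 (min Λ (s + M + Λ)) + (1 + M) * clip ((s + M - rd z) / M)) := by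
    intro z hz
    set r := rd z with hr
    -- up to time `r`
    have key : ∀ s s', s ≤ s' → s' ≤ r → dist (GG H M Λ l s z) (GG H M Λ l s' z) ≤
        K * (max 0 (min Λ (s' + M + Λ)) + (1 + M) * clip ((s' + M - r) / M)) -
        K * (max 0 (min Λ (s + M + Λ)) + (1 + M) * clip ((s + M - r) / M)) := by
      intro s s' hss hs'
      have hsR : s' ≤ R := hs'.trans hz
      have h1 : max 0 (s + M - r) = M * clip ((s + M - r) / M) := by
        rcases le_total (s + M - r) 0 with h | h
        · rw [max_eq_left h, fclip_nonpos (div_nonpos_of_nonpos_of_nonneg h hM0.le), mul_zero]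
        · rw [max_eq_right h, fclip_id (by positivity) (by rw [div_le_one hM0]; linarith)]
          field_simp
      have h1' : max 0 (s' + M - r) = M * clip ((s' + M - r) / M) := by
        rcases le_total (s' + M - r) 0 with h | h
        · rw [max_eq_left h, fclip_nonpos (div_nonpos_of_nonpos_of_nonneg h hM0.le), mul_zero]
        · rw [max_eq_right h, fclip_id (by positivity) (by rw [div_le_one hM0]; linarith)]
          field_simp
      have hcm : clip ((s + M - r) / M) ≤ clip ((s' + M - r) / M) :=
        clip_mono (div_le_div_of_nonneg_right (by linarith) hM0.le)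
      have hLm : max 0 (min Λ (s + M + Λ)) ≤ max 0 (min Λ (s' + M + Λ)) :=
        max_le_max le_rfl (min_le_min le_rfl (by linarith))
      set a := clip ((s + M - r) / M)
      set a' := clip ((s' + M - r) / M)
      set b := max 0 (min Λ (s + M + Λ))
      set b' := max 0 (min Λ (s' + M + Λ))
      have hphi : |phi M Λ l s r - phi M Λ l s' r| ≤ (b' - b) + M * (a' - a) := by
        unfold phi
        refine (max_zero_sub _ _).trans ?_
        have e : r - b + (1 - l) * max 0 (s + M - r) - (r - b' + (1 - l) * max 0 (s' + M - r)) =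
          (b' - b) + -((1 - l) * (M * (a' - a))) := by
          rw [h1, h1']; ring
        change |r - b + (1 - l) * max 0 (s + M - r) - (r - b' + (1 - l) * max 0 (s' + M - r))| ≤ _
        rw [e]
        refine (abs_add_le _ _).trans ?_
        have h2 : 0 ≤ M * (a' - a) := mul_nonneg hM0.le (by linarith)
        rw [abs_neg, abs_of_nonneg (by linarith : 0 ≤ b' - b),
          abs_of_nonneg (mul_nonneg (by linarith) h2)]
        nlinarith
      have h2 : dist (GG H M Λ l s z) (GG H M Λ l s' z) ≤ K * |a - a'| +
          K * |phi M Λ l s r - phi M Λ l s' r| := by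
        refine (dist_triangle (H a (PP (phi M Λ l s r) z)) (H a' (PP (phi M Λ l s r) z))
          (H a' (PP (phi M Λ l s' r) z))).trans ?_
        refine add_le_add (hHtK _ (hPP s z hz (hss.trans hsR)) _ _) ((hHxK _ _ _).trans ?_)
        exact mul_le_mul_of_nonneg_left (hd_rad _ _ z) (by linarith)
      have h3 : |a - a'| = a' - a := by rw [abs_sub_comm, abs_of_nonneg (by linarith)]
      rw [h3] at h2
      have h4 : K * |phi M Λ l s r - phi M Λ l s' r| ≤ K * ((b' - b) + M * (a' - a)) :=
        mul_le_mul_of_nonneg_left hphi (by linarith)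
      refine (h2.trans (add_le_add_right h4 _)).trans (le_of_eq ?_)
      ring
    intro s s' hss hs'
    rcases le_total s' r with h1 | h1
    · exact key s s' hss h1
    · have e' : GG H M Λ l s' z = GG H M Λ l r z := by
        rw [inner s' z hs' hz h1, inner r z hz hz le_rfl]
      have mono : ∀ s s', s ≤ s' → K * (max 0 (min Λ (s + M + Λ)) + (1 + M) * clip ((s + M - r) / M)) ≤
          K * (max 0 (min Λ (s' + M + Λ)) + (1 + M) * clip ((s' + M - r) / M)) := by
        intro s s' hss
        apply mul_le_mul_of_nonneg_left _ (by linarith)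
        apply add_le_add (max_le_max le_rfl (min_le_min le_rfl (by linarith)))
        exact mul_le_mul_of_nonneg_left (clip_mono (div_le_div_of_nonneg_right (by linarith) hM0.le))
          (by linarith)
      rcases le_total s r with h2 | h2
      · rw [e']
        have := key s r h2 le_rfl
        have := mono r s' h1
        linarith
      · have e : GG H M Λ l s z = GG H M Λ l r z := by
          rw [inner s z (hss.trans hs') hz h2, inner r z hz hz le_rfl]
        rw [e, e', dist_self]
        have := mono s s' hss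
        linarith
  -- degenerate radius
  rcases lt_or_ge R 0 with hR | hR
  · have hno : ∀ z : Hyp m, ¬ hdist z (origin m) ≤ R := fun z hz =>
      absurd (hdist_nonneg z (origin m)) (by linarith)
    exact ⟨fun _ _ => p, fun t z w hz => absurd hz (hno z), fun z hz => absurd hz (hno z),
      fun z hz => absurd hz (hno z), fun z hz => absurd hz (hno z), fun z hz => absurd hz (hno z)⟩
  -- time
  let st : ℝ → ℝ := fun t => -M - Λ + clip t * (R + M + Λ)
  have hRMΛ : 0 ≤ R + M + Λ := by linarith
  have hst : ∀ t, st t ≤ R := by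
    intro t
    have h1 := clip_le_one t
    have h2 := clip_nonneg t
    have : clip t * (R + M + Λ) ≤ 1 * (R + M + Λ) := mul_le_mul_of_nonneg_right h1 hRMΛ
    simp only [st]
    linarith
  have hstm : Monotone st := by
    intro a b hab
    have := mul_le_mul_of_nonneg_right (clip_mono hab) hRMΛ
    simp only [st]
    linarith
  have hst0 : st 0 = -M - Λ := by
    simp only [st]
    rw [fclip_nonpos le_rfl, zero_mul, add_zero]
  have hst1 : st 1 = R := by
    simp only [st]
    rw [fclip_one le_rfl]; ring
  have hstc : Continuous st := by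
    have : Continuous clip := by
      unfold clip
      exact continuous_const.max (continuous_const.min continuous_id)
    exact continuous_const.add (this.mul continuous_const)
  refine ⟨fun t z => GG H M Λ l (st t) z, fun t z w hz hw => all _ z w (hst t) hz hw, ?_, ?_, ?_, ?_⟩
  · intro z hz
    -- continuity from the comparison function
    let ψ : ℝ → ℝ := fun s => K * (max 0 (min Λ (s + M + Λ)) + (1 + M) * clip ((s + M - rd z) / M))
    have hψ : Continuous ψ := by
      have hcl : Continuous clip := by
        unfold clip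
        exact continuous_const.max (continuous_const.min continuous_id)
      have h1 : Continuous fun s : ℝ => max 0 (min Λ (s + M + Λ)) := by fun_prop
      have h2 : Continuous fun s : ℝ => clip ((s + M - rd z) / M) := hcl.comp (by fun_prop)
      exact continuous_const.mul (h1.add (continuous_const.mul h2))
    have hd : ∀ a b, dist (GG H M Λ l (st a) z) (GG H M Λ l (st b) z) ≤ |ψ (st a) - ψ (st b)| := by
      intro a b
      rcases le_total a b with h | h
      · have := track z hz (st a) (st b) (hstm h) (hst b)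
        rw [abs_sub_comm]
        exact this.trans (le_abs_self _)
      · have := track z hz (st b) (st a) (hstm h) (hst a)
        rw [dist_comm]
        exact this.trans (le_abs_self _)
    rw [Metric.continuous_iff]
    intro b ε hε
    have h1 := (Metric.continuous_iff.1 (hψ.comp hstc)) b ε hε
    obtain ⟨δ, hδ, h2⟩ := h1
    refine ⟨δ, hδ, fun a ha => ?_⟩
    have h3 := h2 a ha
    rw [Real.dist_eq] at h3
    exact (hd a b).trans_lt h3
  · intro z hz
    let ψ : ℝ → ℝ := fun s => K * (max 0 (min Λ (s + M + Λ)) + (1 + M) * clip ((s + M - rd z) / M))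
    apply evar_le (fun t => GG H M Λ l (st t) z) (fun t => ψ (st t))
    · intro a b hab
      have h1 := hstm hab
      simp only [ψ]
      apply mul_le_mul_of_nonneg_left _ (by linarith)
      apply add_le_add (max_le_max le_rfl (min_le_min le_rfl (by linarith)))
      exact mul_le_mul_of_nonneg_left (clip_mono (div_le_div_of_nonneg_right (by linarith) hM0.le))
        (by linarith)
    · intro t
      simp only [ψ]
      apply mul_nonneg (by linarith)
      exact add_nonneg (le_max_left _ _) (mul_nonneg (by linarith) (clip_nonneg _))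
    · intro t
      simp only [ψ]
      apply mul_le_mul_of_nonneg_left _ (by linarith)
      apply add_le_add (max_le hΛ0 (min_le_left _ _))
      have := clip_le_one ((st t + M - rd z) / M)
      nlinarith
    · intro a b hab
      exact track z hz _ _ (hstm hab) (hst b)
  · intro z hz
    change GG H M Λ l (st 0) z = F z
    rw [hst0]
    have h0 := rd_nonneg z
    unfold GG
    rw [fclip_nonpos (div_nonpos_of_nonpos_of_nonneg (by linarith) hM0.le)]
    have e : phi M Λ l (-M - Λ) (rd z) = rd z := by
      rw [phi_outer (by linarith)]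
      have e1 : -M - Λ + M + Λ = 0 := by ring
      rw [e1, min_eq_right hΛ0, max_self, sub_zero, max_eq_right h0]
    rw [e, PP_self]
    exact hH0 z hz
  · intro z hz
    change GG H M Λ l (st 1) z = p
    rw [hst1]
    exact inner R z le_rfl hz hz

end Pool.Agent.Helper81.LN
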