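import Mathlib
import Pool.Graph.R_seed8.H946R3.LN.Sweep

/-! MP_e25190_gt: the sweep homotopy, reparametrised so that it is Lipschitz in all variables on a
time interval of bounded length. -/

set_option autoImplicit false

open Pool.Agent.H261R3.LH (Lip1 clip clip_nonneg)
open Pool.Agent.H261R3.LN (HL Supp Far)
open Pool.Agent.H946R3.LN

namespace Pool.Agent.Helper81.LN

/-- The walls of level `l` in the line. -/
def wal (l : ℤ) : Set ℝ := Set.range fun n : ℤ => (2:ℝ) ^ l * (n + 1/6)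

theorem wal_ne (l : ℤ) : (wal l).Nonempty := Set.range_nonempty _

/-- distance to the walls -/
noncomputable def wd (l : ℤ) (t : ℝ) : ℝ := Metric.infDist t (wal l)

theorem wd_nonneg (l : ℤ) (t : ℝ) : 0 ≤ wd l t := Metric.infDist_nonneg

theorem wd_lip (l : ℤ) (t t' : ℝ) : |wd l t - wd l t'| ≤ |t - t'| := by
  have h1 : wd l t ≤ wd l t' + dist t t' := Metric.infDist_le_infDist_add_dist
  have h2 : wd l t' ≤ wd l t + dist t' t := Metric.infDist_le_infDist_add_dist
  rw [dist_comm t' t] at h2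
  rw [Real.dist_eq] at h1 h2
  rw [abs_le]
  constructor <;> linarith

theorem wd_le (l n : ℤ) (t : ℝ) : wd l t ≤ |t - (2:ℝ) ^ l * (n + 1/6)| := by
  rw [← Real.dist_eq]
  exact Metric.infDist_le_dist_of_mem ⟨n, rfl⟩

theorem wd_lt {l : ℤ} {t a : ℝ} (h : wd l t < a) : ∃ n : ℤ, |t - (2:ℝ) ^ l * (n + 1/6)| < a := by
  obtain ⟨y, ⟨n, rfl⟩, hy⟩ := (Metric.infDist_lt_iff (wal_ne l)).1 h
  exact ⟨n, by rw [← Real.dist_eq]; exact hy⟩

theorem clip_one_le {x : ℝ} (h : 1 ≤ x) : clip x = 1 := by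
  unfold clip
  rw [min_eq_left h, max_eq_right zero_le_one]

theorem clip_nonpos {x : ℝ} (h : x ≤ 0) : clip x = 0 := by
  unfold clip
  rw [min_eq_right (by linarith), max_eq_left h]

/-- the cutoff near the walls of level `l` -/
noncomputable def ps (l : ℤ) (t η : ℝ) : ℝ := clip (2 - 50 * (2:ℝ) ^ (-η) * wd l t)

theorem ps_nonneg (l : ℤ) (t η : ℝ) : 0 ≤ ps l t η := clip_nonneg _

theorem ps_le_one (l : ℤ) (t η : ℝ) : ps l t η ≤ 1 := clip_le_one _

theorem ps_nok {l : ℤ} {t η : ℝ} (h : ¬ ok l η t) : ps l t η = 1 := by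
  obtain ⟨n, hn⟩ := nok h
  apply clip_one_le
  have h1 := (wd_le l n t).trans hn.le
  have h2 : 50 * (2:ℝ) ^ (-η) * wd l t ≤ 50 * (2:ℝ) ^ (-η) * ((2:ℝ) ^ η / 50) :=
    mul_le_mul_of_nonneg_left h1 (by positivity)
  have h3 : 50 * (2:ℝ) ^ (-η) * ((2:ℝ) ^ η / 50) = 1 := by
    have : (2:ℝ) ^ (-η) * (2:ℝ) ^ η = 1 := by
      rw [← Real.rpow_add (by norm_num)]; simp
    calc 50 * (2:ℝ) ^ (-η) * ((2:ℝ) ^ η / 50) = (2:ℝ) ^ (-η) * (2:ℝ) ^ η := by ring
      _ = 1 := this
  linarith

theorem ps_ne {l : ℤ} {t η : ℝ} (h : ps l t η ≠ 0) : wd l t < (2:ℝ) ^ η / 25 := by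
  by_contra hc
  push Not at hc
  apply h
  apply clip_nonpos
  have h2 : 50 * (2:ℝ) ^ (-η) * ((2:ℝ) ^ η / 25) ≤ 50 * (2:ℝ) ^ (-η) * wd l t :=
    mul_le_mul_of_nonneg_left hc (by positivity)
  have h3 : 50 * (2:ℝ) ^ (-η) * ((2:ℝ) ^ η / 25) = 2 := by
    have : (2:ℝ) ^ (-η) * (2:ℝ) ^ η = 1 := by
      rw [← Real.rpow_add (by norm_num)]; simp
    calc 50 * (2:ℝ) ^ (-η) * ((2:ℝ) ^ η / 25) = 2 * ((2:ℝ) ^ (-η) * (2:ℝ) ^ η) := by ring
      _ = 2 := by rw [this]; ring
  linarith

theorem ps_lx (l : ℤ) (t t' η : ℝ) : |ps l t η - ps l t' η| ≤ 50 * (2:ℝ) ^ (-η) * |t - t'| := by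
  refine (clip_lip _ _).trans ?_
  have e : 2 - 50 * (2:ℝ) ^ (-η) * wd l t - (2 - 50 * (2:ℝ) ^ (-η) * wd l t') =
    50 * (2:ℝ) ^ (-η) * (wd l t' - wd l t) := by ring
  have h0 : 0 ≤ 50 * (2:ℝ) ^ (-η) := by positivity
  rw [e, abs_mul, abs_of_nonneg h0]
  apply mul_le_mul_of_nonneg_left _ h0
  rw [abs_sub_comm t t']
  exact wd_lip l t' t

theorem ps_le_aux (l : ℤ) (t η η' : ℝ) (h : η ≤ η') :
    |ps l t η - ps l t η'| ≤ 4 * (η' - η) := by
  set B : ℝ := 50 * (2:ℝ) ^ (-η) * wd l t with hB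
  set B' : ℝ := 50 * (2:ℝ) ^ (-η') * wd l t with hB'
  have hB0 : 0 ≤ B := by have := wd_nonneg l t; positivity
  have hB0' : 0 ≤ B' := by have := wd_nonneg l t; positivity
  set d := η' - η with hd
  have hd0 : 0 ≤ d := by linarith
  -- B (1 - d) ≤ B' ≤ B
  have h1 : (1 - d) * (2:ℝ) ^ (-η) ≤ (2:ℝ) ^ (-η') := by
    have e : (2:ℝ) ^ (-η') = (2:ℝ) ^ (-d) * (2:ℝ) ^ (-η) := by
      rw [← Real.rpow_add (by norm_num)]; congr 1; rw [hd]; ring
    rw [e]
    apply mul_le_mul_of_nonneg_right _ (by positivity)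
    have hl0 : 0 ≤ Real.log 2 := Real.log_nonneg (by norm_num)
    have hl1 : Real.log 2 ≤ 1 := by
      have := Real.log_le_sub_one_of_pos (show (0:ℝ) < 2 by norm_num)
      linarith
    have h1 : (2:ℝ) ^ (-d) = Real.exp (Real.log 2 * (-d)) := by
      rw [Real.rpow_def_of_pos (by norm_num)]
    rw [h1]
    have h2 := Real.add_one_le_exp (Real.log 2 * (-d))
    nlinarith
  have h2 : (2:ℝ) ^ (-η') ≤ (2:ℝ) ^ (-η) :=
    Real.rpow_le_rpow_of_exponent_le (by norm_num) (by linarith)
  have hw := wd_nonneg l t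
  have h3 : (1 - d) * B ≤ B' := by
    calc (1 - d) * B = 50 * wd l t * ((1 - d) * (2:ℝ) ^ (-η)) := by rw [hB]; ring
      _ ≤ 50 * wd l t * (2:ℝ) ^ (-η') := mul_le_mul_of_nonneg_left h1 (by positivity)
      _ = B' := by rw [hB']; ring
  have h4 : B' ≤ B := by
    calc B' = 50 * wd l t * (2:ℝ) ^ (-η') := by rw [hB']; ring
      _ ≤ 50 * wd l t * (2:ℝ) ^ (-η) := mul_le_mul_of_nonneg_left h2 (by positivity)
      _ = B := by rw [hB]; ring
  change |clip (2 - B) - clip (2 - B')| ≤ 4 * d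
  rcases le_total 2 B' with h5 | h5
  · rw [clip_nonpos (by linarith), clip_nonpos (by linarith), sub_zero, abs_zero]
    linarith
  · rcases le_total B 4 with h6 | h6
    · refine (clip_lip _ _).trans ?_
      rw [show 2 - B - (2 - B') = -(B - B') by ring, abs_neg, abs_of_nonneg (by linarith)]
      nlinarith
    · have h7 : 1/2 ≤ d := by nlinarith
      have a1 := clip_nonneg (2 - B)
      have a2 := clip_nonneg (2 - B')
      have a3 := clip_le_one (2 - B)
      have a4 := clip_le_one (2 - B')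
      rw [abs_le]
      constructor <;> linarith

theorem ps_le (l : ℤ) (t η η' : ℝ) : |ps l t η - ps l t η'| ≤ 4 * |η - η'| := by
  rcases le_total η η' with h | h
  · rw [abs_sub_comm η η', abs_of_nonneg (by linarith : 0 ≤ η' - η)]
    exact ps_le_aux l t η η' h
  · rw [abs_of_nonneg (by linarith : 0 ≤ η - η'), abs_sub_comm]
    exact ps_le_aux l t η' η h

theorem ps_uniq {l l' : ℤ} {η t : ℝ} (hl : η ≤ l) (hl' : η ≤ l') (h : ps l t η ≠ 0)
    (h' : ps l' t η ≠ 0) : l = l' := by
  by_contra hne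
  have key : ∀ l l' : ℤ, η ≤ l → l < l' → ps l t η ≠ 0 → ps l' t η ≠ 0 → False := by
    intro l l' hl hlt h h'
    obtain ⟨n, hn⟩ := wd_lt (ps_ne h)
    obtain ⟨n', hn'⟩ := wd_lt (ps_ne h')
    have h1 := wsepg hlt n n'
    have h3 := abs_sub_le ((2:ℝ) ^ l * (n + 1/6)) t (2 ^ l' * (n' + 1/6))
    rw [abs_sub_comm ((2:ℝ) ^ l * (n + 1/6)) t] at h3
    have h4 : (2:ℝ) ^ η ≤ 2 ^ l := by
      rw [← Real.rpow_intCast]
      exact Real.rpow_le_rpow_of_exponent_le (by norm_num) hl
    have h5 : 0 < (2:ℝ) ^ η := by positivity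
    linarith
  rcases lt_or_gt_of_ne hne with h1 | h1
  · exact key l l' hl h1 h h'
  · exact key l' l hl' h1 h' h

/-- bump which is `1` on `[j, j+1]` -/
noncomputable def tn (j : ℤ) (η : ℝ) : ℝ := clip (min (η - j + 1) (j + 2 - η))

/-- cutoff which is `1` for `η ≤ j` and `0` for `η ≥ j + 1` -/
noncomputable def ct (j : ℤ) (η : ℝ) : ℝ := clip (j + 1 - η)

theorem tn_lip (j : ℤ) (η η' : ℝ) : |tn j η - tn j η'| ≤ |η - η'| := by
  unfold tn
  refine (clip_lip _ _).trans ((abs_min_sub_min_le_max _ _ _ _).trans (max_le ?_ ?_))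
  · rw [show η - j + 1 - (η' - j + 1) = η - η' by ring]
  · rw [show (j:ℝ) + 2 - η - (j + 2 - η') = -(η - η') by ring, abs_neg]

theorem ct_lip (j : ℤ) (η η' : ℝ) : |ct j η - ct j η'| ≤ |η - η'| := by
  unfold ct
  refine (clip_lip _ _).trans ?_
  rw [show (j:ℝ) + 1 - η - (j + 1 - η') = -(η - η') by ring, abs_neg]

theorem tn_one {j : ℤ} {η : ℝ} (h1 : (j:ℝ) ≤ η) (h2 : η ≤ j + 1) : tn j η = 1 := by
  unfold tn
  apply clip_one_le
  exact le_min (by linarith) (by linarith)

theorem tn_ne {j : ℤ} {η : ℝ} (h : tn j η ≠ 0) : (j:ℝ) - 1 < η ∧ η < j + 2 := by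
  constructor
  · by_contra hc
    push Not at hc
    exact h (clip_nonpos ((min_le_left _ _).trans (by linarith)))
  · by_contra hc
    push Not at hc
    exact h (clip_nonpos ((min_le_right _ _).trans (by linarith)))

theorem ct_one {j : ℤ} {η : ℝ} (h : η ≤ j) : ct j η = 1 := clip_one_le (by linarith)

theorem ct_ne {j : ℤ} {η : ℝ} (h : ct j η ≠ 0) : η < j + 1 := by
  by_contra hc
  push Not at hc
  exact h (clip_nonpos (by linarith))

/-- The weight of the time step `[j, j+1]` at the point `(x, η)`. -/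
noncomputable def wt {m : ℕ} (j : ℤ) (x : Fin m → ℝ) (η : ℝ) : ℝ :=
  tn j η + ct j η * ∑ i, (ps j (x i) η + ps (j+1) (x i) η)

section
variable {m : ℕ}

theorem sum_ps_nonneg (j : ℤ) (x : Fin m → ℝ) (η : ℝ) :
    0 ≤ ∑ i, (ps j (x i) η + ps (j+1) (x i) η) :=
  Finset.sum_nonneg fun i _ => add_nonneg (ps_nonneg _ _ _) (ps_nonneg _ _ _)

theorem sum_ps_le (j : ℤ) (x : Fin m → ℝ) (η : ℝ) :
    ∑ i, (ps j (x i) η + ps (j+1) (x i) η) ≤ 2 * m := by
  calc ∑ i, (ps j (x i) η + ps (j+1) (x i) η) ≤ ∑ i : Fin m, (2:ℝ) :=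
        Finset.sum_le_sum fun i _ => by linarith [ps_le_one j (x i) η, ps_le_one (j+1) (x i) η]
    _ = 2 * m := by simp [mul_comm]

theorem wt_nonneg (j : ℤ) (x : Fin m → ℝ) (η : ℝ) : 0 ≤ wt j x η :=
  add_nonneg (clip_nonneg _) (mul_nonneg (clip_nonneg _) (sum_ps_nonneg j x η))

theorem wt_le (j : ℤ) (x : Fin m → ℝ) (η : ℝ) : wt j x η ≤ 1 + 2 * m := by
  unfold wt
  have h1 : tn j η ≤ 1 := clip_le_one _
  have h2 : ct j η ≤ 1 := clip_le_one _
  have h3 : 0 ≤ ct j η := clip_nonneg _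
  have h4 := sum_ps_nonneg j x η
  have h5 := sum_ps_le j x η
  nlinarith

theorem wt_lx (j : ℤ) (x x' : Fin m → ℝ) (η : ℝ) :
    |wt j x η - wt j x' η| ≤ 100 * m * ((2:ℝ) ^ (-η) * dist x x') := by
  unfold wt
  have e : tn j η + ct j η * ∑ i, (ps j (x i) η + ps (j+1) (x i) η) -
      (tn j η + ct j η * ∑ i, (ps j (x' i) η + ps (j+1) (x' i) η)) =
      ct j η * ∑ i, ((ps j (x i) η - ps j (x' i) η) + (ps (j+1) (x i) η - ps (j+1) (x' i) η)) := by
    rw [add_sub_add_left_eq_sub, ← mul_sub, ← Finset.sum_sub_distrib]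
    congr 1
    apply Finset.sum_congr rfl
    intro i _
    ring
  have h2 : ct j η ≤ 1 := clip_le_one _
  have h3 : 0 ≤ ct j η := clip_nonneg _
  have hp : 0 < (2:ℝ) ^ (-η) := by positivity
  rw [e, abs_mul, abs_of_nonneg h3]
  have h4 : |∑ i, ((ps j (x i) η - ps j (x' i) η) + (ps (j+1) (x i) η - ps (j+1) (x' i) η))| ≤
      ∑ i : Fin m, 100 * ((2:ℝ) ^ (-η) * dist x x') := by
    refine (Finset.abs_sum_le_sum_abs _ _).trans (Finset.sum_le_sum fun i _ => ?_)
    refine (abs_add_le _ _).trans ?_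
    have a1 := ps_lx j (x i) (x' i) η
    have a2 := ps_lx (j+1) (x i) (x' i) η
    have a3 : |x i - x' i| ≤ dist x x' := by rw [← Real.dist_eq]; exact dist_le_pi_dist x x' i
    have a4 : 50 * (2:ℝ) ^ (-η) * |x i - x' i| ≤ 50 * (2:ℝ) ^ (-η) * dist x x' :=
      mul_le_mul_of_nonneg_left a3 (by positivity)
    linarith
  have h5 : ∑ i : Fin m, 100 * ((2:ℝ) ^ (-η) * dist x x') = 100 * m * ((2:ℝ) ^ (-η) * dist x x') := by
    simp; ring
  rw [h5] at h4
  have h6 := abs_nonneg (∑ i, ((ps j (x i) η - ps j (x' i) η) + (ps (j+1) (x i) η - ps (j+1) (x' i) η)))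
  nlinarith

theorem wt_lη (j : ℤ) (x : Fin m → ℝ) (η η' : ℝ) :
    |wt j x η - wt j x η'| ≤ (1 + 10 * m) * |η - η'| := by
  unfold wt
  set s := ∑ i, (ps j (x i) η + ps (j+1) (x i) η) with hs
  set s' := ∑ i, (ps j (x i) η' + ps (j+1) (x i) η') with hs'
  have e : tn j η + ct j η * s - (tn j η' + ct j η' * s') =
      (tn j η - tn j η') + ((ct j η - ct j η') * s + ct j η' * (s - s')) := by ring
  rw [e]
  have h1 := tn_lip j η η'
  have h2 := ct_lip j η η'
  have h3 : ct j η' ≤ 1 := clip_le_one _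
  have h3' : 0 ≤ ct j η' := clip_nonneg _
  have h4 : 0 ≤ s := sum_ps_nonneg j x η
  have h5 : s ≤ 2 * m := sum_ps_le j x η
  have h6 : |s - s'| ≤ 8 * m * |η - η'| := by
    rw [hs, hs', ← Finset.sum_sub_distrib]
    have h7 : |∑ i, ((ps j (x i) η + ps (j+1) (x i) η) - (ps j (x i) η' + ps (j+1) (x i) η'))| ≤
        ∑ i : Fin m, 8 * |η - η'| := by
      refine (Finset.abs_sum_le_sum_abs _ _).trans (Finset.sum_le_sum fun i _ => ?_)
      have a1 := ps_le j (x i) η η'
      have a2 := ps_le (j+1) (x i) η η'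
      have e2 : (ps j (x i) η + ps (j+1) (x i) η) - (ps j (x i) η' + ps (j+1) (x i) η') =
        (ps j (x i) η - ps j (x i) η') + (ps (j+1) (x i) η - ps (j+1) (x i) η') := by ring
      rw [e2]
      refine (abs_add_le _ _).trans (by linarith)
    refine h7.trans (le_of_eq ?_)
    simp; ring
  refine (abs_add_le _ _).trans ?_
  refine (add_le_add_right (abs_add_le _ _) _).trans ?_
  rw [abs_mul, abs_mul, abs_of_nonneg h4, abs_of_nonneg h3']
  have h8 := abs_nonneg (η - η')
  have h9 : |ct j η - ct j η'| * s ≤ |η - η'| * (2 * m) := mul_le_mul h2 h5 h4 h8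
  have h10 : ct j η' * |s - s'| ≤ 8 * m * |η - η'| := by
    have := abs_nonneg (s - s')
    nlinarith
  nlinarith

open scoped Classical in
/-- a finite set of indices outside of which the weight vanishes -/
theorem wt_supp (x : Fin m → ℝ) (η : ℝ) : ∃ B : Finset ℤ, B.card ≤ 2 * m + 3 ∧
    ∀ j, wt j x η ≠ 0 → j ∈ B := by
  set j0 := ⌊η⌋ with hj0
  let lv : Fin m → ℤ := fun i => if h : ∃ l : ℤ, j0 + 1 ≤ l ∧ ps l (x i) η ≠ 0 then h.choose else j0
  have hge : ∀ l : ℤ, j0 + 1 ≤ l → η ≤ l := by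
    intro l hl
    have h1 := (Int.lt_floor_add_one η).le
    have h2 : ((j0 + 1 : ℤ) : ℝ) ≤ l := by exact_mod_cast hl
    push_cast at h2
    linarith
  have hlv : ∀ i l, j0 + 1 ≤ l → ps l (x i) η ≠ 0 → l = lv i := by
    intro i l hl hn
    have hex : ∃ l : ℤ, j0 + 1 ≤ l ∧ ps l (x i) η ≠ 0 := ⟨l, hl, hn⟩
    have e : lv i = hex.choose := dif_pos hex
    rw [e]
    exact ps_uniq (hge l hl) (hge _ hex.choose_spec.1) hn hex.choose_spec.2
  let B : Finset ℤ := {j0 - 1, j0, j0 + 1} ∪ Finset.univ.biUnion fun i : Fin m => {lv i, lv i - 1}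
  refine ⟨B, ?_, ?_⟩
  · have h1 : B.card ≤ ({j0 - 1, j0, j0 + 1} : Finset ℤ).card +
        (Finset.univ.biUnion fun i : Fin m => ({lv i, lv i - 1} : Finset ℤ)).card :=
      Finset.card_union_le _ _
    have h2 : (Finset.univ.biUnion fun i : Fin m => ({lv i, lv i - 1} : Finset ℤ)).card ≤ m * 2 := by
      have := Finset.card_biUnion_le_card_mul (Finset.univ : Finset (Fin m))
        (fun i => ({lv i, lv i - 1} : Finset ℤ)) 2 (fun i _ => Finset.card_le_two)
      simpa using this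
    have h3 : ({j0 - 1, j0, j0 + 1} : Finset ℤ).card ≤ 3 := Finset.card_le_three
    omega
  · intro j hj
    rw [Finset.mem_union]
    by_cases h1 : tn j η = 0
    · have h2 : ct j η * ∑ i, (ps j (x i) η + ps (j+1) (x i) η) ≠ 0 := by
        intro h2
        apply hj
        unfold wt
        rw [h1, h2, add_zero]
      have h3 : ct j η ≠ 0 := left_ne_zero_of_mul h2
      have h4 : ∑ i, (ps j (x i) η + ps (j+1) (x i) η) ≠ 0 := right_ne_zero_of_mul h2
      have h5 := ct_ne h3
      have h6 : j0 ≤ j := by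
        have h7 : (j0:ℝ) ≤ η := Int.floor_le η
        have h8 : (j0:ℝ) < ((j + 1 : ℤ) : ℝ) := by push_cast; linarith
        have h9 : j0 < j + 1 := by exact_mod_cast h8
        omega
      by_cases h7 : j ≤ j0 + 1
      · left
        simp only [Finset.mem_insert, Finset.mem_singleton]
        omega
      · right
        push Not at h7
        obtain ⟨i, _, hi⟩ := Finset.exists_ne_zero_of_sum_ne_zero h4
        rw [Finset.mem_biUnion]
        refine ⟨i, Finset.mem_univ _, ?_⟩
        by_cases h8 : ps j (x i) η = 0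
        · have h9 : ps (j+1) (x i) η ≠ 0 := by
            intro h9; apply hi; rw [h8, h9, add_zero]
          have := hlv i (j+1) (by omega) h9
          have e : j = lv i - 1 := by omega
          rw [Finset.mem_insert, Finset.mem_singleton]
          right; exact e
        · have := hlv i j (by omega) h8
          rw [Finset.mem_insert]
          left; exact this
    · left
      obtain ⟨h2, h3⟩ := tn_ne h1
      have h7 : (j0:ℝ) ≤ η := Int.floor_le η
      have h8 : η < j0 + 1 := Int.lt_floor_add_one η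
      have h9 : j - 1 < j0 + 1 := by
        have : ((j - 1 : ℤ) : ℝ) < ((j0 + 1 : ℤ) : ℝ) := by push_cast; linarith
        exact_mod_cast this
      have h10 : j0 < j + 2 := by
        have : (j0 : ℝ) < ((j + 2 : ℤ) : ℝ) := by push_cast; linarith
        exact_mod_cast this
      simp only [Finset.mem_insert, Finset.mem_singleton]
      omega

/-- sums of a function supported in a small set -/
theorem sum_le_of_supp (J B : Finset ℤ) (f : ℤ → ℝ) (N : ℕ) (a : ℝ) (ha : 0 ≤ a) (hB : B.card ≤ N)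
    (h : ∀ j, f j ≠ 0 → j ∈ B) (hf : ∀ j, f j ≤ a) : ∑ j ∈ J, f j ≤ N * a := by
  classical
  have h1 : ∑ j ∈ J, f j = ∑ j ∈ J ∩ B, f j := by
    symm
    apply Finset.sum_subset Finset.inter_subset_left
    intro j hj hj2
    by_contra h3
    exact hj2 (Finset.mem_inter.2 ⟨hj, h j h3⟩)
  rw [h1]
  calc ∑ j ∈ J ∩ B, f j ≤ ∑ j ∈ J ∩ B, a := Finset.sum_le_sum fun j _ => hf j
    _ = (J ∩ B).card * a := by simp
    _ ≤ N * a := by
        apply mul_le_mul_of_nonneg_right _ ha
        have : (J ∩ B).card ≤ N := (Finset.card_le_card Finset.inter_subset_right).trans hB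
        exact_mod_cast this

/-- The reparametrised time at the sweep time `L`. -/
noncomputable def TT (J : Finset ℤ) (x : Fin m → ℝ) (η L : ℝ) : ℝ :=
  ∑ j ∈ J, wt j x η * clip (L - j)

theorem TT_mono (J : Finset ℤ) (x : Fin m → ℝ) (η : ℝ) : Monotone (TT J x η) := by
  intro a b hab
  apply Finset.sum_le_sum
  intro j _
  exact mul_le_mul_of_nonneg_left (clip_mono (by linarith)) (wt_nonneg j x η)

theorem clip_cont : Continuous clip := by
  unfold clip
  exact continuous_const.max (continuous_const.min continuous_id)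

theorem TT_cont (J : Finset ℤ) (x : Fin m → ℝ) (η : ℝ) : Continuous (TT J x η) := by
  unfold TT
  apply continuous_finset_sum
  intro j _
  exact continuous_const.mul (clip_cont.comp (continuous_id.sub continuous_const))

theorem TT_le (J : Finset ℤ) (x : Fin m → ℝ) (η L : ℝ) :
    TT J x η L ≤ ((2 * m + 3 : ℕ) : ℝ) * (1 + 2 * m) := by
  obtain ⟨B, hB1, hB2⟩ := wt_supp x η
  unfold TT
  apply sum_le_of_supp J B _ _ _ (by positivity) hB1
  · intro j hj
    exact hB2 j (left_ne_zero_of_mul hj)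
  · intro j
    have h1 := wt_nonneg j x η
    have h2 := wt_le j x η
    have h3 := clip_nonneg (L - j)
    have h4 := clip_le_one (L - j)
    nlinarith

theorem TT_nonneg (J : Finset ℤ) (x : Fin m → ℝ) (η L : ℝ) : 0 ≤ TT J x η L :=
  Finset.sum_nonneg fun j _ => mul_nonneg (wt_nonneg j x η) (clip_nonneg _)

theorem TT_diff (J : Finset ℤ) (x x' : Fin m → ℝ) (η η' L a : ℝ) (ha : 0 ≤ a)
    (h : ∀ j, |wt j x η - wt j x' η'| ≤ a) :
    |TT J x η L - TT J x' η' L| ≤ ((4 * m + 6 : ℕ) : ℝ) * a := by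
  classical
  obtain ⟨B, hB1, hB2⟩ := wt_supp x η
  obtain ⟨B', hB1', hB2'⟩ := wt_supp x' η'
  unfold TT
  rw [← Finset.sum_sub_distrib]
  refine (Finset.abs_sum_le_sum_abs _ _).trans ?_
  apply sum_le_of_supp J (B ∪ B') _ _ _ ha
  · refine (Finset.card_union_le _ _).trans ?_
    omega
  · intro j hj
    rw [Finset.mem_union]
    by_contra hc
    push Not at hc
    apply hj
    have h1 : wt j x η = 0 := by
      by_contra h1; exact hc.1 (hB2 j h1)
    have h2 : wt j x' η' = 0 := by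
      by_contra h2; exact hc.2 (hB2' j h2)
    rw [h1, h2, zero_mul, sub_zero, abs_zero]
  · intro j
    rw [← sub_mul, abs_mul, abs_of_nonneg (clip_nonneg _)]
    have h1 := h j
    have h3 := clip_nonneg (L - j)
    have h4 := clip_le_one (L - j)
    have h5 := abs_nonneg (wt j x η - wt j x' η')
    nlinarith

variable {S : Type} [MetricSpace S]

/-- clamp to `[-N, N+1]` -/
noncomputable def cl (N : ℕ) (L : ℝ) : ℝ := max (-(N:ℝ)) (min (N + 1) L)

theorem cl_id {N : ℕ} {L : ℝ} (h1 : -(N:ℝ) ≤ L) (h2 : L ≤ N + 1) : cl N L = L := by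
  unfold cl
  rw [min_eq_right h2, max_eq_right h1]

theorem cl_low {N : ℕ} {L : ℝ} (h1 : L ≤ -(N:ℝ)) : cl N L = -(N:ℝ) := by
  unfold cl
  apply max_eq_left
  exact (min_le_right _ _).trans h1

theorem cl_high {N : ℕ} {L : ℝ} (h1 : (N:ℝ) + 1 ≤ L) : cl N L = N + 1 := by
  unfold cl
  rw [min_eq_left h1, max_eq_right]
  have : (0:ℝ) ≤ N := Nat.cast_nonneg N
  linarith

theorem cl_mono (N : ℕ) : Monotone (cl N) := by
  intro a b h
  exact max_le_max le_rfl (min_le_min le_rfl h)

theorem cl_dist (N : ℕ) (a b : ℝ) : |cl N a - cl N b| ≤ |a - b| := by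
  unfold cl
  have h1 := abs_max_sub_max_le_max (-(N:ℝ)) (min (N+1) a) (-(N:ℝ)) (min (N+1) b)
  have h2 := abs_min_sub_min_le_max ((N:ℝ)+1) a ((N:ℝ)+1) b
  rw [sub_self, abs_zero] at h1 h2
  have h3 : max 0 |a - b| = |a - b| := max_eq_right (abs_nonneg _)
  rw [h3] at h2
  exact h1.trans (max_le (abs_nonneg _) h2)

theorem KK_comp {C : ℝ} (hC : 0 ≤ C) {p : S} {F : (Fin m → ℝ) → ℝ → S} (hF : HL C F)
    (hS : Supp p F) (x : Fin m → ℝ) (η : ℝ) (N : ℕ) :
    ∀ a b : ℝ, a ≤ b → dist (KK F (cl N a) x η) (KK F (cl N b) x η) ≤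
      3 * C * TT (Finset.Icc (-(N:ℤ)) N) x η b - 3 * C * TT (Finset.Icc (-(N:ℤ)) N) x η a := by
  have hLip := KK_Lip hC hF x η
  set J := Finset.Icc (-(N:ℤ)) N with hJ
  set f : ℝ → S := fun L => KK F (cl N L) x η with hf
  have hmono := TT_mono J x η
  change ∀ a b : ℝ, a ≤ b → dist (f a) (f b) ≤
      (fun L => 3 * C * TT J x η L) b - (fun L => 3 * C * TT J x η L) a
  apply glob
  intro j a b ha hab hb
  have hnn : 0 ≤ 3 * C * TT J x η b - 3 * C * TT J x η a := by
    rw [← mul_sub]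
    exact mul_nonneg (by positivity) (by linarith [hmono hab])
  by_cases hj : j ∈ J
  · obtain ⟨hj1, hj2⟩ := Finset.mem_Icc.1 hj
    have hj1' : -(N:ℝ) ≤ j := by exact_mod_cast hj1
    have hj2' : (j:ℝ) ≤ N := by exact_mod_cast hj2
    have ea : cl N a = a := cl_id (by linarith) (by linarith)
    have eb : cl N b = b := cl_id (by linarith) (by linarith)
    by_cases hw : 1 ≤ wt j x η
    · have h1 : dist (KK F a x η) (KK F b x η) ≤ 3 * C * |a - b| := hLip a b
      have h2 : b - a ≤ TT J x η b - TT J x η a := by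
        unfold TT
        rw [← Finset.sum_sub_distrib]
        have h3 : b - a = clip (b - j) - clip (a - j) := by
          rw [clip_id (by linarith) (by linarith), clip_id (by linarith) (by linarith)]; ring
        have h4 : b - a ≤ wt j x η * clip (b - j) - wt j x η * clip (a - j) := by
          rw [← mul_sub, ← h3]
          nlinarith
        refine h4.trans ?_
        apply Finset.single_le_sum (f := fun j : ℤ => wt j x η * clip (b - j) - wt j x η * clip (a - j)) _ hj
        intro i _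
        have := clip_mono (show a - i ≤ b - i by linarith)
        have h9 := wt_nonneg i x η
        have h10 : 0 ≤ wt i x η * (clip (b - i) - clip (a - i)) := mul_nonneg h9 (by linarith)
        rw [mul_sub] at h10
        exact h10
      have h4 : |a - b| = b - a := by rw [abs_sub_comm, abs_of_nonneg (by linarith)]
      rw [h4] at h1
      simp only [hf]
      rw [ea, eb]
      calc dist (KK F a x η) (KK F b x η) ≤ 3 * C * (b - a) := h1
        _ ≤ 3 * C * (TT J x η b - TT J x η a) := mul_le_mul_of_nonneg_left h2 (by positivity)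
        _ = 3 * C * TT J x η b - 3 * C * TT J x η a := by ring
    · -- constant on this step
      push Not at hw
      have hconst : KK F a x η = KK F b x η := by
        rcases le_or_gt ((j:ℝ) + 1) η with h1 | h1
        · rw [KK_eq F (by linarith) x, KK_eq F (by linarith) x]
        · have hη : η < j := by
            by_contra hc
            push Not at hc
            have h2 := tn_one hc h1.le
            have h3 : 0 ≤ ct j η * ∑ i, (ps j (x i) η + ps (j+1) (x i) η) :=
              mul_nonneg (clip_nonneg _) (sum_ps_nonneg j x η)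
            unfold wt at hw
            linarith
          have hc1 := ct_one hη.le
          have ht0 : 0 ≤ tn j η := clip_nonneg _
          have hsum : ∑ i, (ps j (x i) η + ps (j+1) (x i) η) < 1 := by
            unfold wt at hw
            rw [hc1, one_mul] at hw
            linarith
          have hok : ∀ i, ok j η (x i) ∧ ok (j+1) η (x i) := by
            intro i
            have h5 : ps j (x i) η + ps (j+1) (x i) η ≤
                ∑ i, (ps j (x i) η + ps (j+1) (x i) η) :=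
              Finset.single_le_sum (f := fun i => ps j (x i) η + ps (j+1) (x i) η)
                (fun i _ => add_nonneg (ps_nonneg _ _ _) (ps_nonneg _ _ _)) (Finset.mem_univ i)
            have h6 := ps_nonneg j (x i) η
            have h7 := ps_nonneg (j+1) (x i) η
            constructor
            · by_contra hn
              have := ps_nok hn
              linarith
            · by_contra hn
              have := ps_nok hn
              linarith
          rw [KK_val hS ha (by linarith) hη.le x hok, KK_val hS (by linarith) hb hη.le x hok]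
      simp only [hf]
      rw [ea, eb, hconst, dist_self]
      exact hnn
  · have hconst : cl N a = cl N b := by
      rw [Finset.mem_Icc, not_and_or] at hj
      push Not at hj
      rcases hj with h | h
      · have h1 : (j:ℝ) + 1 ≤ -(N:ℝ) := by
          have : j + 1 ≤ -(N:ℤ) := by omega
          exact_mod_cast this
        rw [cl_low (by linarith), cl_low (by linarith)]
      · have h1 : (N:ℝ) + 1 ≤ j := by
          have : (N:ℤ) + 1 ≤ j := by omega
          exact_mod_cast this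
        rw [cl_high (by linarith), cl_high (by linarith)]
    simp only [hf]
    rw [hconst, dist_self]
    exact hnn

theorem KK_comp' {C : ℝ} (hC : 0 ≤ C) {p : S} {F : (Fin m → ℝ) → ℝ → S} (hF : HL C F)
    (hS : Supp p F) (x : Fin m → ℝ) (η : ℝ) (N : ℕ) (a b : ℝ) :
    dist (KK F (cl N a) x η) (KK F (cl N b) x η) ≤
      3 * C * |TT (Finset.Icc (-(N:ℤ)) N) x η a - TT (Finset.Icc (-(N:ℤ)) N) x η b| := by
  rcases le_total a b with h | h
  · have h1 := KK_comp hC hF hS x η N a b h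
    have h2 := TT_mono (Finset.Icc (-(N:ℤ)) N) x η h
    rw [abs_sub_comm, abs_of_nonneg (by linarith)]
    linarith
  · have h1 := KK_comp hC hF hS x η N b a h
    have h2 := TT_mono (Finset.Icc (-(N:ℤ)) N) x η h
    rw [abs_of_nonneg (by linarith), dist_comm]
    linarith

end

/-- The jointly Lipschitz sweep. -/
theorem sweepJ (S : Type) [MetricSpace S] (p : S) (m : ℕ) (C : ℝ) (hC : 0 ≤ C) :
    ∃ C' : ℝ, 0 ≤ C' ∧ ∀ F : (Fin m → ℝ) → ℝ → S, HL C F → Supp p F → ∀ X : ℝ,
      ∃ K : ℝ → (Fin m → ℝ) → ℝ → S, (∀ t, HL C' (K t)) ∧ (∀ x η, Lip1 C' (fun t => K t x η)) ∧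
        (∀ x η, |η| ≤ X → K 0 x η = F x η) ∧
        (∀ x η, (∀ i, |x i| ≤ X) → |η| ≤ X → K 1 x η = p) := by
  set W : ℝ := ((2 * m + 3 : ℕ) : ℝ) * (1 + 2 * m) with hW
  have hW0 : 0 ≤ W := by positivity
  set A : ℝ := ((4 * m + 6 : ℕ) : ℝ) * (1 + 100 * m) with hA
  have hA0 : 0 ≤ A := by positivity
  refine ⟨7 * C + 3 * C * (2 * A) + 3 * C * W, by positivity, ?_⟩
  intro F hF hS X
  -- the end of the sweep
  have hend : ∀ X : ℝ, ∃ L₀ : ℝ, ∀ L, L₀ ≤ L → ∀ x η, (∀ i, |x i| ≤ X) → η ≤ X → KK F L x η = p := by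
    intro X
    refine ⟨7 * |X| + 2, ?_⟩
    intro L hL x η hx hη
    have h1 := Int.floor_le L
    have h2 := (Int.lt_floor_add_one L).le
    set j := ⌊L⌋ with hj
    have h3 : 7 * |X| + 1 ≤ j := by linarith
    have h4 : X ≤ |X| := le_abs_self X
    have h4' := abs_nonneg X
    have h5 := int_le_two_pow j
    have h6 := int_le_two_pow (j+1)
    push_cast at h6
    apply KK_val hS h1 h2 (by linarith) x
    intro i
    have hxi : |x i| ≤ |X| := (hx i).trans h4
    exact ⟨ok_large hxi (by linarith), ok_large hxi (by linarith)⟩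
  obtain ⟨L₀, hL₀⟩ := hend X
  obtain ⟨N, hN⟩ := exists_nat_ge (max |L₀| X)
  have hN1 : |L₀| ≤ N := (le_max_left _ _).trans hN
  have hN2 : X ≤ N := (le_max_right _ _).trans hN
  set J := Finset.Icc (-(N:ℤ)) N with hJ
  have hN0 : (0:ℝ) ≤ N := Nat.cast_nonneg N
  -- total time
  let Tm : (Fin m → ℝ) → ℝ → ℝ := fun x η => TT J x η (N + 1)
  have hlow : ∀ (x : Fin m → ℝ) (η : ℝ), TT J x η (-(N:ℝ)) = 0 := by
    intro x η
    unfold TT
    apply Finset.sum_eq_zero
    intro j hj
    obtain ⟨hj1, hj2⟩ := Finset.mem_Icc.1 hj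
    have hj1' : -(N:ℝ) ≤ j := by exact_mod_cast hj1
    rw [clip_nonpos (by linarith), mul_zero]
  let cm : (Fin m → ℝ) → ℝ → ℝ → ℝ := fun x η t => max 0 (min (Tm x η) (W * t))
  have hcm : ∀ x η t, 0 ≤ cm x η t ∧ cm x η t ≤ Tm x η := fun x η t =>
    ⟨le_max_left _ _, max_le (TT_nonneg _ _ _ _) (min_le_left _ _)⟩
  have hex : ∀ x η t, ∃ L, TT J x η L = cm x η t := by
    intro x η t
    obtain ⟨h1, h2⟩ := hcm x η t
    have h3 := intermediate_value_Icc (by linarith : -(N:ℝ) ≤ N + 1)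
      (TT_cont J x η).continuousOn
    have h4 : cm x η t ∈ Set.Icc (TT J x η (-(N:ℝ))) (TT J x η (N + 1)) := by
      rw [hlow]
      exact ⟨h1, h2⟩
    obtain ⟨L, _, hL⟩ := h3 h4
    exact ⟨L, hL⟩
  choose Lf hLf using hex
  let K : ℝ → (Fin m → ℝ) → ℝ → S := fun t x η => KK F (cl N (Lf x η t)) x η
  have hcmd : ∀ x η x' η' t a, |Tm x η - Tm x' η'| ≤ a → |cm x η t - cm x' η' t| ≤ a := by
    intro x η x' η' t a h
    have h1 := abs_max_sub_max_le_max 0 (min (Tm x η) (W*t)) 0 (min (Tm x' η') (W*t))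
    have h2 := abs_min_sub_min_le_max (Tm x η) (W*t) (Tm x' η') (W*t)
    rw [sub_self, abs_zero] at h1 h2
    have h0 := abs_nonneg (Tm x η - Tm x' η')
    have h3 : max |Tm x η - Tm x' η'| 0 ≤ a := max_le h (h0.trans h)
    exact h1.trans (max_le (h0.trans h) (h2.trans h3))
  have hcmt : ∀ x η t t', |cm x η t - cm x η t'| ≤ W * |t - t'| := by
    intro x η t t'
    have h1 := abs_max_sub_max_le_max 0 (min (Tm x η) (W*t)) 0 (min (Tm x η) (W*t'))
    have h2 := abs_min_sub_min_le_max (Tm x η) (W*t) (Tm x η) (W*t')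
    rw [sub_self, abs_zero] at h1 h2
    have h3 : |W * t - W * t'| = W * |t - t'| := by rw [← mul_sub, abs_mul, abs_of_nonneg hW0]
    rw [h3] at h2
    have h4 : 0 ≤ W * |t - t'| := by positivity
    exact h1.trans (max_le h4 (h2.trans (max_le h4 le_rfl)))
  -- comparison of two points
  have key : ∀ x η x' η' t a d, (∀ L, |TT J x η L - TT J x' η' L| ≤ a) →
      (∀ L, dist (KK F L x η) (KK F L x' η') ≤ d) →
      dist (K t x η) (K t x' η') ≤ d + 3 * C * (2 * a) := by
    intro x η x' η' t a d h1 h2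
    have h3 := dist_triangle (KK F (cl N (Lf x η t)) x η) (KK F (cl N (Lf x η t)) x' η')
      (KK F (cl N (Lf x' η' t)) x' η')
    have h4 := h2 (cl N (Lf x η t))
    have h5 := KK_comp' hC hF hS x' η' N (Lf x η t) (Lf x' η' t)
    have h6 : |TT J x' η' (Lf x η t) - TT J x' η' (Lf x' η' t)| ≤ 2 * a := by
      have e : TT J x' η' (Lf x η t) - TT J x' η' (Lf x' η' t) =
        -(TT J x η (Lf x η t) - TT J x' η' (Lf x η t)) + (cm x η t - cm x' η' t) := by
        rw [hLf, hLf]; ring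
      rw [e]
      refine (abs_add_le _ _).trans ?_
      rw [abs_neg]
      have h7 := h1 (Lf x η t)
      have h8 := hcmd x η x' η' t a (h1 (N + 1))
      linarith
    have h7 : 3 * C * |TT J x' η' (Lf x η t) - TT J x' η' (Lf x' η' t)| ≤ 3 * C * (2 * a) :=
      mul_le_mul_of_nonneg_left h6 (by positivity)
    change dist (KK F (cl N (Lf x η t)) x η) (KK F (cl N (Lf x' η' t)) x' η') ≤ _
    linarith
  refine ⟨K, ?_, ?_, ?_, ?_⟩
  · intro t
    constructor
    · intro η x x'
      have hd : 0 ≤ (2:ℝ) ^ (-η) * dist x x' := by positivity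
      have h1 := key x η x' η t (A * ((2:ℝ) ^ (-η) * dist x x')) (7 * C * (2:ℝ) ^ (-η) * dist x x')
        (fun L => by
          refine (TT_diff J x x' η η L (100 * m * ((2:ℝ) ^ (-η) * dist x x')) (by positivity)
            (fun j => wt_lx j x x' η)).trans ?_
          rw [hA, mul_assoc ((4 * m + 6 : ℕ) : ℝ) (1 + 100 * (m:ℝ))]
          apply mul_le_mul_of_nonneg_left _ (by positivity)
          nlinarith)
        (fun L => (KK_HL hC hF L).1 η x x')
      refine h1.trans (le_trans (le_of_eq (b := (7 * C + 3 * C * (2 * A)) * ((2:ℝ) ^ (-η) * dist x x')) (by ring)) ?_)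
      rw [mul_assoc (7 * C + 3 * C * (2 * A) + 3 * C * W)]
      apply mul_le_mul_of_nonneg_right _ hd
      have : 0 ≤ 3 * C * W := by positivity
      linarith
    · intro x η η'
      have hd : 0 ≤ |η - η'| := abs_nonneg _
      have h1 := key x η x η' t (A * |η - η'|) (7 * C * |η - η'|)
        (fun L => by
          refine (TT_diff J x x η η' L ((1 + 10 * m) * |η - η'|) (by positivity)
            (fun j => wt_lη j x η η')).trans ?_
          rw [hA, mul_assoc]
          apply mul_le_mul_of_nonneg_left _ (by positivity)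
          have hm : (0:ℝ) ≤ m := Nat.cast_nonneg m
          nlinarith)
        (fun L => (KK_HL hC hF L).2 x η η')
      refine h1.trans (le_trans (le_of_eq (b := (7 * C + 3 * C * (2 * A)) * |η - η'|) (by ring)) ?_)
      apply mul_le_mul_of_nonneg_right _ hd
      have : 0 ≤ 3 * C * W := by positivity
      linarith
  · intro x η t t'
    have h5 := KK_comp' hC hF hS x η N (Lf x η t) (Lf x η t')
    rw [hLf, hLf] at h5
    have h6 := hcmt x η t t'
    have h7 : 3 * C * |cm x η t - cm x η t'| ≤ 3 * C * (W * |t - t'|) :=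
      mul_le_mul_of_nonneg_left h6 (by positivity)
    change dist (KK F (cl N (Lf x η t)) x η) (KK F (cl N (Lf x η t')) x η) ≤ _
    have hd : 0 ≤ |t - t'| := abs_nonneg _
    have h8 : 0 ≤ (7 * C + 3 * C * (2 * A)) * |t - t'| := by positivity
    linarith
  · intro x η hη
    have h1 : cm x η 0 = 0 := by
      change max 0 (min (Tm x η) (W * 0)) = 0
      rw [mul_zero]
      exact max_eq_left (min_le_right _ _)
    have h2 := KK_comp' hC hF hS x η N (Lf x η 0) (-(N:ℝ))
    rw [hLf, h1, hlow, sub_zero, abs_zero, mul_zero] at h2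
    have h3 : KK F (cl N (Lf x η 0)) x η = KK F (cl N (-(N:ℝ))) x η :=
      dist_le_zero.1 h2
    change KK F (cl N (Lf x η 0)) x η = F x η
    rw [h3, cl_low le_rfl]
    apply KK_eq
    have := (abs_le.1 hη).1
    linarith
  · intro x η hx hη
    have h1 : cm x η 1 = Tm x η := by
      change max 0 (min (Tm x η) (W * 1)) = Tm x η
      rw [mul_one, min_eq_left (TT_le J x η _), max_eq_right (TT_nonneg _ _ _ _)]
    have h2 := KK_comp' hC hF hS x η N (Lf x η 1) ((N:ℝ) + 1)
    rw [hLf, h1] at h2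
    have h2' : dist (KK F (cl N (Lf x η 1)) x η) (KK F (cl N ((N:ℝ) + 1)) x η) ≤ 0 := by
      refine h2.trans (le_of_eq ?_)
      change 3 * C * |Tm x η - Tm x η| = 0
      rw [sub_self, abs_zero, mul_zero]
    have h3 : KK F (cl N (Lf x η 1)) x η = KK F (cl N ((N:ℝ) + 1)) x η :=
      dist_le_zero.1 h2'
    change KK F (cl N (Lf x η 1)) x η = p
    rw [h3, cl_high le_rfl]
    apply hL₀ _ _ x η hx
    · exact (le_abs_self η).trans hη
    · have := le_abs_self L₀
      linarith

end Pool.Agent.Helper81.LN
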