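import Mathlib
import Pool.Graph.R_seed8.H261R3.LN.SPre
import Pool.Graph.R_seed8.H261R3.LN.FDefs
import Pool.Graph.R_seed8.H261R3.LH.Fin
import Pool.Agent.Helper81.LN.SweepJ

/-! MP_e25190_gt: null-homotopies, Lipschitz in all variables, of maps from hyperbolic space to
simply connected compact Lipschitz neighbourhood retracts. -/

set_option autoImplicit false

open scoped NNReal ENNReal
open Pool.Agent.H261R3.LH (Lip1 IsLNR clip clip_nonneg glueR)
open Pool.Agent.H261R3.LN
open Pool.Agent.H554R3.LS (hl_mono clip_zero clip_one hpt_self)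

namespace Pool.Agent.Helper81.LN

section
variable {S : Type} [MetricSpace S]

/-- concatenation of two homotopies -/
noncomputable def glue2 {X : Type} (A B : ℝ → X) (t : ℝ) : X :=
  if t ≤ 1 / 2 then A (clip (2 * t)) else B (clip (2 * t - 1))

theorem glue2_zero {X : Type} (A B : ℝ → X) : glue2 A B 0 = A 0 := by
  unfold glue2
  rw [if_pos (by norm_num), mul_zero, clip_zero]

theorem glue2_one {X : Type} (A B : ℝ → X) : glue2 A B 1 = B 1 := by
  unfold glue2
  rw [if_neg (by norm_num)]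
  have e : (2:ℝ) * 1 - 1 = 1 := by norm_num
  rw [e, clip_one]

theorem clip_dist (a b : ℝ) : |clip a - clip b| ≤ |a - b| :=
  Pool.Agent.H946R3.LN.clip_lip a b

theorem lip1_comp {C : ℝ} (hC : 0 ≤ C) {f : ℝ → S} (hf : Lip1 C f) (c : ℝ) :
    Lip1 (2 * C) (fun t => f (clip (2 * t - c))) := by
  intro x y
  refine (hf _ _).trans ?_
  have h1 := clip_dist (2 * x - c) (2 * y - c)
  rw [show 2 * x - c - (2 * y - c) = 2 * (x - y) by ring, abs_mul, abs_two] at h1
  have := mul_le_mul_of_nonneg_left h1 hC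
  linarith

theorem glue2_lip {C : ℝ} (hC : 0 ≤ C) {A B : ℝ → S} (hA : Lip1 C A) (hB : Lip1 C B)
    (h : A 1 = B 0) : Lip1 (2 * C) (glue2 A B) := by
  refine glueR (1 / 2) (f := fun t => A (clip (2 * t))) (g := fun t => B (clip (2 * t - 1))) ?_ ?_ ?_
  · have := lip1_comp hC hA 0
    simpa using this
  · exact lip1_comp hC hB 1
  · have e1 : (2:ℝ) * (1 / 2) = 1 := by norm_num
    rw [e1, sub_self, clip_one, clip_zero, h]

end

theorem mainJ (m : ℕ) (S : Type) [MetricSpace S] [CompactSpace S] [SimplyConnectedSpace S]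
    (hLNR : IsLNR S) (p : S) : ∃ C : ℝ, 0 ≤ C ∧ ∀ R : ℝ, ∀ F : Hyp m → S,
      (∀ z w, dist (F z) (F w) ≤ hdist z w) → ∃ H : ℝ → Hyp m → S,
        (∀ t z w, dist (H t z) (H t w) ≤ C * hdist z w) ∧
        (∀ z, hdist z (origin m) ≤ R → Lip1 C (fun t => H t z)) ∧
        (∀ z, hdist z (origin m) ≤ R → H 0 z = F z) ∧
        ∀ z, hdist z (origin m) ≤ R → H 1 z = p := by
  have hPP : PathProp S p := Pool.Agent.H853R3.LH.Path.taskPath S hLNR p
  have hNP : NulProp S p := fun C =>
    (Pool.Agent.H261R3.LH.taskNulUnif Pool.Agent.H275R3.LH.taskNulOne) S hLNR p C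
  obtain ⟨C0, hC0, hof⟩ := HLof750.taskHLof m
  obtain ⟨C1, hC1, h1⟩ := Pool.Agent.H808R3.LN.taskStageS1 Pool.Agent.H78R3.LN.taskSlice S p m hPP C0
  obtain ⟨C2, hC2, h2⟩ := Pool.Agent.H474R3.LN.taskStageS2 Pool.Agent.H689R3.Slab.taskSlab S p m hNP C1
  obtain ⟨C3, hC3, h3⟩ := sweepJ S p m C2 hC2
  have hΔ : ∀ a b : S, dist a b ≤ Metric.diam (Set.univ : Set S) := fun a b =>
    Metric.dist_le_diam_of_mem isCompact_univ.isBounded (Set.mem_univ _) (Set.mem_univ _)
  set C5 := C1 + (C2 + C3) with hC5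
  have hC50 : 0 ≤ C5 := by positivity
  obtain ⟨C4, hC4, h4⟩ := Pool.Agent.H344R3.LN.taskHLto m S C5 (Metric.diam (Set.univ : Set S)) hC50 hΔ
  refine ⟨max C4 (4 * C5), hC4.trans (le_max_left _ _), fun R F hF => ?_⟩
  obtain ⟨X, hX⟩ := Pool.Agent.H119R3.LN.taskBallBd m R
  have hF0 := hof S F hF
  obtain ⟨H1, h1a, h1b, h1c, h1d⟩ := h1 (fun x η => F (hpt x η)) hF0
  obtain ⟨H2, h2a, h2b, h2c, h2d⟩ := h2 (H1 1) (h1a 1) h1d
  obtain ⟨K, ka, kb, kc, kd⟩ := h3 (H2 1) (h2a 1) h2d X
  have lm : ∀ {a b : ℝ} {f : ℝ → S}, a ≤ b → Lip1 a f → Lip1 b f := by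
    intro a b f hab hf x y
    exact (hf x y).trans (mul_le_mul_of_nonneg_right hab (abs_nonneg _))
  -- first two homotopies
  let G : ℝ → (Fin m → ℝ) → ℝ → S := fun t x η => glue2 (fun s => H1 s x η) (fun s => H2 s x η) t
  have hG : ∀ t, HL C5 (G t) := by
    intro t
    by_cases ht1 : t ≤ 1 / 2
    · have e : G t = H1 (clip (2 * t)) := by
        funext x η
        simp only [G, glue2, if_pos ht1]
      rw [e]
      exact hl_mono (by linarith) (h1a _)
    · have e : G t = H2 (clip (2 * t - 1)) := by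
        funext x η
        simp only [G, glue2, if_neg ht1]
      rw [e]
      exact hl_mono (by linarith) (h2a _)
  have hGt : ∀ x η, Lip1 (2 * C5) (fun t => G t x η) := by
    intro x η
    exact glue2_lip hC50 (lm (by linarith) (h1b x η)) (lm (by linarith) (h2b x η)) (h2c x η).symm
  have hG0 : ∀ x η, G 0 x η = F (hpt x η) := by
    intro x η
    change glue2 _ _ 0 = _
    rw [glue2_zero, h1c]
  have hG1 : ∀ x η, G 1 x η = H2 1 x η := by
    intro x η
    change glue2 _ _ 1 = _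
    rw [glue2_one]
  -- all three; outside of the slab |η| ≤ X nothing is required
  let Q : ℝ → (Fin m → ℝ) → ℝ → S := fun t x η => glue2 (fun s => G s x η) (fun s => K s x η) t
  have hQ : ∀ t, HL C5 (Q t) := by
    intro t
    by_cases ht1 : t ≤ 1 / 2
    · have e : Q t = G (clip (2 * t)) := by
        funext x η
        simp only [Q, glue2, if_pos ht1]
      rw [e]
      exact hG _
    · have e : Q t = K (clip (2 * t - 1)) := by
        funext x η
        simp only [Q, glue2, if_neg ht1]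
      rw [e]
      exact hl_mono (by linarith) (ka _)
  have hQt : ∀ x η, |η| ≤ X → Lip1 (4 * C5) (fun t => Q t x η) := by
    intro x η hη
    have := glue2_lip (by positivity : 0 ≤ 2 * C5) (hGt x η)
      (lm (by linarith) (kb x η)) (by rw [hG1, kc x η hη])
    refine lm ?_ this
    linarith
  refine ⟨fun t z => Q t (fun i => z.x i) (Real.logb 2 z.y), fun t z w => ?_, fun z hz => ?_,
    fun z hz => ?_, fun z hz => ?_⟩
  · refine (h4 (Q t) (hQ t) z w).trans ?_
    exact mul_le_mul_of_nonneg_right (le_max_left _ _) (dist_nonneg : 0 ≤ dist z w)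
  · obtain ⟨hx, hη⟩ := hX z hz
    exact lm (le_max_right _ _) (hQt _ _ hη)
  · obtain ⟨hx, hη⟩ := hX z hz
    change glue2 _ _ 0 = _
    rw [glue2_zero, hG0, hpt_self]
  · obtain ⟨hx, hη⟩ := hX z hz
    change glue2 _ _ 1 = _
    rw [glue2_one, kd _ _ hx hη]

end Pool.Agent.Helper81.LN
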