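import Mathlib
import Pool.Graph.R_seed8.H261R3.LN.LAll
import Pool.Agent.Helper81.LN.MainJ
import Pool.Agent.Helper81.LN.Front

/-! MP_e25190_gt: bounded diameters for every `c ≥ 1` when the fundamental group is finite. -/

set_option autoImplicit false

open scoped NNReal ENNReal
open Pool.Agent.H261R3.LH (Lip1 IsLNR)
open Pool.Agent.H261R3.LN

namespace Pool.Agent.Helper81.LN

/-- null-homotopies through 1-Lipschitz maps with bounded tracks -/
theorem null_one (m : ℕ) (E : Type) [MetricSpace E] [CompactSpace E] [SimplyConnectedSpace E]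
    (hE : IsLNR E) (p : E) : ∃ D : ℝ, 0 ≤ D ∧ ∀ R : ℝ, 0 ≤ R → ∀ F : Hyp m → E,
      (∀ z w, dist (F z) (F w) ≤ hdist z w) → ∃ G : ℝ → Hyp m → E,
        (∀ t z w, dist (G t z) (G t w) ≤ hdist z w) ∧
        (∀ z, hdist z (origin m) ≤ R → Continuous (fun t => G t z)) ∧
        (∀ z, hdist z (origin m) ≤ R →
          eVariationOn (fun t => G t z) Set.univ ≤ ENNReal.ofReal D) ∧
        (∀ z, hdist z (origin m) ≤ R → G 0 z = F z) ∧
        ∀ z, hdist z (origin m) ≤ R → G 1 z = p := by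
  obtain ⟨C, hC, hH⟩ := mainJ m E hE p
  have hΔ : ∀ a b : E, dist a b ≤ Metric.diam (Set.univ : Set E) := fun a b =>
    Metric.dist_le_diam_of_mem isCompact_univ.isBounded (Set.mem_univ _) (Set.mem_univ _)
  obtain ⟨D, hD, hG⟩ := front (m := m) (Metric.diam (Set.univ : Set E)) hΔ p C
  refine ⟨D, hD, fun R hR F hF => ?_⟩
  obtain ⟨H, a1, a2, a3, a4⟩ := hH R F hF
  obtain ⟨G, b1, b2, b3, b4, b5⟩ := hG R F hF H a1 a2 a3 a4
  obtain ⟨ρ, r1, r2, r3⟩ := taskRetrN m R hR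
  refine ⟨fun t z => G t (ρ z), fun t z w => ?_, fun z hz => ?_, fun z hz => ?_, fun z hz => ?_,
    fun z hz => ?_⟩
  · exact (b1 t _ _ (r1 z) (r1 w)).trans (r3 z w)
  · simp only [r2 z hz]; exact b2 z hz
  · simp only [r2 z hz]; exact b3 z hz
  · simp only [r2 z hz]; exact b4 z hz
  · simp only [r2 z hz]; exact b5 z hz

/-- passing to a space covered by `E` -/
theorem cover_allC (m : ℕ) (E S : Type) [MetricSpace E] [CompactSpace E] [SimplyConnectedSpace E]
    [MetricSpace S] (hE : IsLNR E) (π : E → S) (hπ : IsMetricCover π) :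
    ∃ D : ℝ≥0, ∀ c : ℝ≥0, 1 ≤ c → ∀ R : ℝ, 0 < R → hypDiam m S c R ≤ D := by
  obtain ⟨p⟩ : Nonempty E := inferInstance
  obtain ⟨D, hD, hH⟩ := null_one m E hE p
  obtain ⟨C', hC', hlip⟩ := Pool.Agent.H41R3.LMCovLip.taskCovLip E S π hπ
  obtain ⟨ε, hε, hiso⟩ := hπ.isom
  have hC0 : 0 ≤ C' := by linarith
  have hlw : LipschitzWith ⟨C', hC0⟩ π := LipschitzWith.of_dist_le_mul fun a b => hlip a b
  let DD : ℝ≥0 := ⟨D, hD⟩
  let CC : ℝ≥0 := ⟨C', hC0⟩
  let D' : ℝ≥0 := CC * DD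
  refine ⟨D' + D', fun c hc R hR => ?_⟩
  -- retraction makes the radius nonnegative for free
  refine diam_upperS taskRetrN (π p) 1 D' ?_ c (by exact_mod_cast hc) R hR
  intro R F hF
  obtain ⟨F', h1, h2⟩ := Pool.Agent.H878.LN.taskLift m E S π hπ F hF
  obtain ⟨H, k1, k2, k3, k4, k5⟩ := hH (max R 0) (le_max_right _ _) F' h1
  have hle : ∀ z : Hyp m, hdist z (origin m) ≤ R → hdist z (origin m) ≤ max R 0 :=
    fun z hz => hz.trans (le_max_left _ _)
  refine ⟨fun t z => π (H t z), fun t z w => ?_, fun z hz => hlw.continuous.comp (k2 z (hle z hz)),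
    fun z hz => ?_, fun z hz => ?_, fun z hz => ?_⟩
  · rw [one_mul]
    refine loc_glob (f := fun z => π (H t z)) hε ?_ z w
    intro z w hzw
    have h3 := k1 t z w
    change dist (π (H t z)) (π (H t w)) ≤ hdist z w
    rw [hiso _ _ (h3.trans_lt hzw)]
    exact h3
  · have h5 := (hlw.lipschitzOnWith (s := Set.univ)).comp_eVariationOn_le
      (g := fun t => H t z) (s := Set.univ) (fun _ _ => Set.mem_univ _)
    have h8 : eVariationOn (fun t => H t z) Set.univ ≤ (DD : ℝ≥0∞) :=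
      (k3 z (hle z hz)).trans (le_of_eq (ENNReal.ofReal_eq_coe_nnreal hD))
    have h9 : (CC : ℝ≥0∞) * eVariationOn (fun t => H t z) Set.univ ≤ (CC : ℝ≥0∞) * (DD : ℝ≥0∞) := by
      gcongr
    have h10 : ((D' : ℝ≥0) : ℝ≥0∞) = (CC : ℝ≥0∞) * (DD : ℝ≥0∞) := ENNReal.coe_mul _ _
    rw [h10]
    exact h5.trans h9
  · change π (H 0 z) = F z
    rw [k4 z (hle z hz), h2]
  · change π (H 1 z) = π p
    rw [k5 z (hle z hz)]

/-- bounded diameters, for every `c ≥ 1`, when the fundamental group is finite -/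
theorem bounded_allC (m : ℕ) (S : Type) [MetricSpace S] [CompactSpace S] [PathConnectedSpace S]
    (hS : IsLNR S) (p : S) (hp : Finite (Path.Homotopic.Quotient p p)) :
    ∃ D : ℝ≥0, ∀ c : ℝ≥0, 1 ≤ c → ∀ R : ℝ, 0 < R → hypDiam m S c R ≤ D := by
  obtain ⟨ε, hε, -, ⟨L⟩⟩ := Pool.Agent.H859R3.LN.taskU0 S hS
  let _ := ucMetric L hε p
  have : CompactSpace (UC p) := Pool.Agent.H683R3.LN.taskU2 S hS ε hε L p hp
  have : SimplyConnectedSpace (UC p) := U3H474.taskU3 Pool.Agent.H125R3.LN.taskU1 S hS ε hε L p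
  exact cover_allC m (UC p) S
    (Pool.Agent.H825R3.LN.taskU4 Pool.Agent.H683R3.LN.taskU2 S hS ε hε L p hp) (ucProj p)
    (Pool.Agent.H125R3.LN.taskU1 S hS ε hε L p)

end Pool.Agent.Helper81.LN
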