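import Mathlib
import Pool.Agent.Helper81.LN.AllC

/-! MP_e25190_gt: the linear upper bound. -/

set_option autoImplicit false

open scoped NNReal ENNReal
open Pool.Agent.H261R3.LH (Lip1 IsLNR clip clip_nonneg)
open Pool.Agent.H261R3.LN
open Pool.Agent.H261R3.LD (LipCurve distLip diamLip)
open Pool.Agent.H946R3.LN (clip_lip clip_le_one clip_mono)

namespace Pool.Agent.Helper81.LN

/-- abstract upper bound for one radius -/
theorem diam_upperR {m : ℕ} {S : Type} [MetricSpace S] (p : S) (D : ℝ≥0) (R : ℝ) (hR : 0 < R)
    (hH : ∀ F : Hyp m → S, (∀ z w, dist (F z) (F w) ≤ hdist z w) →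
      ∃ H : ℝ → Hyp m → S, (∀ t z w, dist (H t z) (H t w) ≤ hdist z w) ∧
      (∀ z, hdist z (origin m) ≤ R → Continuous (fun t => H t z)) ∧
      (∀ z, hdist z (origin m) ≤ R → eVariationOn (fun t => H t z) Set.univ ≤ D) ∧
      (∀ z, hdist z (origin m) ≤ R → H 0 z = F z) ∧
      ∀ z, hdist z (origin m) ≤ R → H 1 z = p) (c : ℝ≥0) (hc : 1 ≤ c) :
    hypDiam m S c R ≤ ((D + D : ℝ≥0) : ℝ≥0∞) := by
  obtain ⟨ρ, h1, h2, h3⟩ := taskRetrN m R hR.le
  have key : ∀ f : Metric.closedBall (origin m) R → S, LipschitzWith 1 f →
      ∃ H : ℝ → Metric.closedBall (origin m) R → S,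
      (∀ t z w, dist (H t z) (H t w) ≤ dist z w) ∧ (∀ z, Continuous (fun t => H t z)) ∧
      (∀ z, eVariationOn (fun t => H t z) Set.univ ≤ D) ∧
      (∀ z, H 0 z = f z) ∧ ∀ z, H 1 z = p := by
    intro f hf
    obtain ⟨H, k1, k2, k3, k4, k5⟩ := hH (fun z => f ⟨ρ z, h1 z⟩) (fun z w => by
      refine (hf.dist_le_mul _ _).trans ?_
      rw [NNReal.coe_one, one_mul]
      exact h3 z w)
    refine ⟨fun t z => H t z.1, fun t z w => k1 t z.1 w.1, fun z => k2 z.1 z.2,
      fun z => k3 z.1 z.2, fun z => ?_, fun z => k5 z.1 z.2⟩
    change H 0 z.1 = f z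
    rw [k4 z.1 z.2]
    congr 1
    exact Subtype.ext (h2 z.1 z.2)
  unfold hypDiam diamLip
  refine iSup_le fun f => iSup_le fun hf => iSup_le fun g => iSup_le fun hg => ?_
  obtain ⟨H, a1, a2, a3, a4, a5⟩ := key f hf
  obtain ⟨H', b1, b2, b3, b4, b5⟩ := key g hg
  let γ : LipCurve (Metric.closedBall (origin m) R) S c f g :=
    { F := fun t z => (fun t : ℝ => if t ≤ 1 / 2 then H (2 * t) z else H' (2 - 2 * t) z) t
      lip := by
        intro t
        apply LipschitzWith.of_dist_le_mul
        intro z w
        have h5 : dist z w ≤ c * dist z w := by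
          have h6 : (1:ℝ) ≤ c := by exact_mod_cast hc
          have h7 : 0 ≤ dist z w := dist_nonneg
          nlinarith
        refine le_trans ?_ h5
        dsimp only
        split_ifs
        · exact a1 _ z w
        · exact b1 _ z w
      cont := by
        intro z
        have h5 : Continuous (fun t : ℝ => if t ≤ 1 / 2 then H (2 * t) z else H' (2 - 2 * t) z) := by
          refine Continuous.if_le ((a2 z).comp (continuous_const.mul continuous_id))
            ((b2 z).comp (continuous_const.sub (continuous_const.mul continuous_id)))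
            continuous_id continuous_const ?_
          intro t ht
          have ht' : t = 1 / 2 := ht
          rw [ht']
          norm_num
          rw [a5, b5]
        exact h5.comp continuous_subtype_val
      start := by
        funext z
        simp [a4]
      finish := by
        funext z
        dsimp only
        rw [if_neg (by norm_num)]
        norm_num
        exact b4 z }
  refine (iInf_le _ γ).trans ?_
  unfold LipCurve.length
  refine iSup_le fun z => ?_
  rw [ENNReal.coe_add]
  exact track_var (fun t => H t z) (fun t => H' t z) ((a5 z).trans (b5 z).symm) (a3 z) (b3 z)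

theorem lip_var {S : Type} [MetricSpace S] {f : ℝ → S} {C : ℝ} (hC : 0 ≤ C)
    (h : ∀ s t, 0 ≤ s → s ≤ t → t ≤ 1 → dist (f s) (f t) ≤ C * (t - s)) :
    eVariationOn (fun t => f (clip t)) Set.univ ≤ ENNReal.ofReal C := by
  apply Pool.Agent.H946R3.LN.evar_le (fun t => f (clip t)) (fun t => C * clip t)
  · intro a b hab
    exact mul_le_mul_of_nonneg_left (clip_mono hab) hC
  · intro t; exact mul_nonneg hC (clip_nonneg t)
  · intro t
    have := mul_le_mul_of_nonneg_left (clip_le_one t) hC
    linarith
  · intro a b hab
    have := h (clip a) (clip b) (clip_nonneg a) (clip_mono hab) (clip_le_one b)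
    change dist (f (clip a)) (f (clip b)) ≤ C * clip b - C * clip a
    linarith

/-- the linear upper bound -/
theorem upper_lin (S : Type) [MetricSpace S] [CompactSpace S] [PathConnectedSpace S]
    (hS : IsLNR S) (p : S) : ∃ A : ℝ, 0 ≤ A ∧ ∀ (m : ℕ) (c : ℝ≥0), 1 ≤ c → ∀ R : ℝ, 0 < R →
      hypDiam m S c R ≤ ENNReal.ofReal (2 * R + A) := by
  obtain ⟨C, hC, hP⟩ := Pool.Agent.H853R3.LH.Path.taskPath S hS p
  refine ⟨2 * C, by positivity, fun m c hc R hR => ?_⟩
  have hRC : 0 ≤ R + C := by positivity
  have key := diam_upperR (m := m) p (⟨R + C, hRC⟩ : ℝ≥0) R hR ?_ c hc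
  · refine key.trans (le_of_eq ?_)
    have e : 2 * R + 2 * C = (R + C) + (R + C) := by ring
    rw [e, ENNReal.ofReal_add hRC hRC, ENNReal.coe_add]
    rw [ENNReal.ofReal_eq_coe_nnreal hRC]
    rfl
  · intro F hF
    obtain ⟨P, hP1, hP2, hP3⟩ := hP (F (origin m))
    -- first the contraction to the centre, then the path
    let A : ℝ → Hyp m → S := fun t z => F (PP (max 0 (rd z - R * t)) z)
    have hA : ∀ t, 0 ≤ t → ∀ z w, dist (A t z) (A t w) ≤ hdist z w := by
      intro t ht z w
      refine (hF _ _).trans (contr_one (le_max_left _ _) (le_max_left _ _) ?_ ?_ ?_)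
      · refine (max_zero_sub _ _).trans (le_of_eq ?_)
        congr 1; ring
      · apply max_le (rd_nonneg z)
        have : 0 ≤ R * t := by positivity
        linarith
      · apply max_le (rd_nonneg w)
        have : 0 ≤ R * t := by positivity
        linarith
    have hAt : ∀ z s t, dist (A s z) (A t z) ≤ R * |s - t| := by
      intro z s t
      refine (hF _ _).trans ((hd_rad _ _ z).trans ((max_zero_sub _ _).trans (le_of_eq ?_)))
      rw [show rd z - R * s - (rd z - R * t) = -(R * (s - t)) by ring, abs_neg, abs_mul,
        abs_of_pos hR]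
    have hA0 : ∀ z, A 0 z = F z := by
      intro z
      simp only [A]
      rw [mul_zero, sub_zero, max_eq_right (rd_nonneg z), PP_self]
    have hA1 : ∀ z, hdist z (origin m) ≤ R → A 1 z = F (origin m) := by
      intro z hz
      simp only [A]
      have hz' : rd z ≤ R := hz
      rw [mul_one, max_eq_left (by linarith)]
      congr 1
      have h1 := rd_PP le_rfl z
      have h2 := rd_nonneg (PP 0 z)
      have h3 : hdist (PP 0 z) (origin m) = 0 := le_antisymm h1 h2
      exact dist_eq_zero.1 (h3 : dist (PP 0 z) (origin m) = 0)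
    refine ⟨fun t z => glue2 (fun s => A s z) P t, ?_, ?_, ?_, ?_, ?_⟩
    · intro t z w
      by_cases ht : t ≤ 1 / 2
      · simp only [glue2, if_pos ht]
        exact hA _ (clip_nonneg _) z w
      · simp only [glue2, if_neg ht]
        rw [dist_self]; exact (dist_nonneg : 0 ≤ dist z w)
    · intro z hz
      have h1 : Lip1 (max R C) (fun s => A s z) := fun s t =>
        (hAt z s t).trans (mul_le_mul_of_nonneg_right (le_max_left _ _) (abs_nonneg _))
      have h2 : Lip1 (max R C) P := fun s t =>
        (hP1 s t).trans (mul_le_mul_of_nonneg_right (le_max_right _ _) (abs_nonneg _))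
      have h3 := glue2_lip (hR.le.trans (le_max_left _ _)) h1 h2 (by rw [hA1 z hz, hP2])
      have h4 : LipschitzWith (Real.toNNReal (2 * max R C)) (fun t => glue2 (fun s => A s z) P t) :=
        LipschitzWith.of_dist_le_mul fun x y => by
          rw [Real.dist_eq]
          exact (h3 x y).trans (mul_le_mul_of_nonneg_right (Real.le_coe_toNNReal _) (abs_nonneg _))
      exact h4.continuous
    · intro z hz
      -- variation: comparison function
      have hmid : A 1 z = P 0 := by rw [hA1 z hz, hP2]
      have hcmp : ∀ s t, s ≤ t → dist (glue2 (fun s => A s z) P s) (glue2 (fun s => A s z) P t) ≤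
          (R * clip (2 * t) + C * clip (2 * t - 1)) - (R * clip (2 * s) + C * clip (2 * s - 1)) := by
        intro s t hst
        have m1 : clip (2 * s) ≤ clip (2 * t) := clip_mono (by linarith)
        have m2 : clip (2 * s - 1) ≤ clip (2 * t - 1) := clip_mono (by linarith)
        have a1 : dist (A (clip (2 * s)) z) (A (clip (2 * t)) z) ≤ R * (clip (2*t) - clip (2*s)) := by
          refine (hAt z _ _).trans (le_of_eq ?_)
          rw [abs_sub_comm, abs_of_nonneg (by linarith)]
        have a2 : dist (P (clip (2 * s - 1))) (P (clip (2 * t - 1))) ≤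
            C * (clip (2*t-1) - clip (2*s-1)) := by
          refine (hP1 _ _).trans (le_of_eq ?_)
          rw [abs_sub_comm, abs_of_nonneg (by linarith)]
        have c1 : 0 ≤ C * (clip (2*t-1) - clip (2*s-1)) := mul_nonneg hC (by linarith)
        have c2 : 0 ≤ R * (clip (2*t) - clip (2*s)) := mul_nonneg hR.le (by linarith)
        unfold glue2
        split_ifs with h1 h2 h2
        · linarith
        · -- s ≤ 1/2 < t
          have e1 : clip (2 * t) = 1 := fclip_one (by linarith)
          have e2 : clip (2 * s - 1) = 0 := fclip_nonpos (by linarith)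
          have h3 := dist_triangle (A (clip (2 * s)) z) (A 1 z) (P (clip (2 * t - 1)))
          have h4 : dist (A (clip (2 * s)) z) (A 1 z) ≤ R * (clip (2*t) - clip (2*s)) := by
            rw [e1] at a1 ⊢; exact a1
          have h5 : dist (A 1 z) (P (clip (2 * t - 1))) ≤ C * (clip (2*t-1) - clip (2*s-1)) := by
            rw [hmid]
            rw [e2] at a2 ⊢; exact a2
          linarith
        · linarith
        · linarith
      have := Pool.Agent.H946R3.LN.evar_le (fun t => glue2 (fun s => A s z) P t)
        (fun t => R * clip (2 * t) + C * clip (2 * t - 1)) (R + C) ?_ ?_ ?_ hcmp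
      · refine this.trans (le_of_eq ?_)
        exact ENNReal.ofReal_eq_coe_nnreal hRC
      · intro a b hab
        exact add_le_add (mul_le_mul_of_nonneg_left (clip_mono (by linarith)) hR.le)
          (mul_le_mul_of_nonneg_left (clip_mono (by linarith)) hC)
      · intro t
        exact add_nonneg (mul_nonneg hR.le (clip_nonneg _)) (mul_nonneg hC (clip_nonneg _))
      · intro t
        have h1 := mul_le_mul_of_nonneg_left (clip_le_one (2 * t)) hR.le
        have h2 := mul_le_mul_of_nonneg_left (clip_le_one (2 * t - 1)) hC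
        linarith
    · intro z hz
      change glue2 (fun s => A s z) P 0 = F z
      rw [glue2_zero, hA0]
    · intro z hz
      change glue2 (fun s => A s z) P 1 = p
      rw [glue2_one, hP3]

end Pool.Agent.Helper81.LN
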